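import Mathlib
import Pool.Agent.N792.FlGen
import Pool.Agent.H510R2.Maier.MA4

set_option autoImplicit false

/-!
# Upper bound sieve for arbitrary classes modulo the primes of a set
-/

namespace Pool.Agent.H39m

open Finset Filter Topology
open Pool.Agent.H510R2.Maier (QQ QQ_pos QQ_cell QQ_real)

lemma exists_J (z1 : ℕ) (hz : 2 ≤ z1) : ∃ J : ℕ, z1 ≤ 2 ^ 2 ^ J ∧ 2 ^ 2 ^ J ≤ z1 ^ 2 := by
  classical
  have hex : ∃ J : ℕ, z1 ≤ 2 ^ 2 ^ J := by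
    refine ⟨z1, ?_⟩
    have h1 : z1 < 2 ^ z1 := Nat.lt_two_pow_self
    have h2 : 2 ^ z1 < 2 ^ 2 ^ z1 := Nat.pow_lt_pow_right (by norm_num) Nat.lt_two_pow_self
    omega
  refine ⟨Nat.find hex, Nat.find_spec hex, ?_⟩
  rcases Nat.eq_zero_or_pos (Nat.find hex) with h0 | h0
  · rw [h0]
    norm_num
    nlinarith
  · obtain ⟨j, hj⟩ : ∃ j, Nat.find hex = j + 1 := ⟨Nat.find hex - 1, by omega⟩
    have h1 : ¬ z1 ≤ 2 ^ 2 ^ j := Nat.find_min hex (by omega)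
    rw [hj, pow_succ, pow_mul]
    exact Nat.pow_le_pow_left (by omega) 2

/-- the factor of a prime -/
lemma fac_pos {p : ℕ} (hp : p.Prime) : 0 < 1 - 1 / (p : ℝ) := by
  have : (2 : ℝ) ≤ p := by exact_mod_cast hp.two_le
  have : 1 / (p : ℝ) ≤ 1 / 2 := by gcongr
  linarith

lemma fac_le {p : ℕ} : 1 - 1 / (p : ℝ) ≤ 1 := by
  have : (0 : ℝ) ≤ 1 / p := by positivity
  linarith

lemma prod_pos' {P : Finset ℕ} (hP : ∀ p ∈ P, p.Prime) : 0 < ∏ p ∈ P, (1 - 1 / (p : ℝ)) :=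
  Finset.prod_pos fun p hp => fac_pos (hP p hp)

lemma prod_le_one' {P : Finset ℕ} (hP : ∀ p ∈ P, p.Prime) : ∏ p ∈ P, (1 - 1 / (p : ℝ)) ≤ 1 :=
  Finset.prod_le_one (fun p hp => (fac_pos (hP p hp)).le) fun _ _ => fac_le

/-- products over subsets -/
lemma prod_mono {P Q : Finset ℕ} (hQ : ∀ p ∈ Q, p.Prime) (h : P ⊆ Q) :
    ∏ p ∈ Q, (1 - 1 / (p : ℝ)) ≤ ∏ p ∈ P, (1 - 1 / (p : ℝ)) := by
  classical
  rw [← Finset.prod_sdiff h]
  have h1 := prod_le_one' (P := Q \ P) fun p hp => hQ p (Finset.mem_sdiff.1 hp).1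
  have h2 := prod_pos' (P := P) fun p hp => hQ p (h hp)
  nlinarith

/-- small primes of `P` against all of `P` -/
lemma prod_small {P : Finset ℕ} (z w : ℕ) (hP : ∀ p ∈ P, p.Prime ∧ p ≤ z) (hwz : w ≤ z) :
    ∏ p ∈ P.filter (fun p => p ≤ w), (1 - 1 / (p : ℝ)) ≤
      (QQ w / QQ z) * ∏ p ∈ P, (1 - 1 / (p : ℝ)) := by
  classical
  have hsplit : ∏ p ∈ P, (1 - 1 / (p : ℝ)) =
      (∏ p ∈ P.filter (fun p => p ≤ w), (1 - 1 / (p : ℝ))) *
        ∏ p ∈ P.filter (fun p => ¬ p ≤ w), (1 - 1 / (p : ℝ)) :=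
    (Finset.prod_filter_mul_prod_filter_not P (fun p => p ≤ w) _).symm
  have hQ : QQ z = QQ w * ∏ p ∈ (Finset.Icc 1 z).filter (fun p => p.Prime ∧ ¬ p ≤ w), (1 - 1 / (p : ℝ)) := by
    unfold QQ
    rw [← Finset.prod_union]
    · refine Finset.prod_congr ?_ fun _ _ => rfl
      ext p
      simp only [Finset.mem_filter, Finset.mem_union, Finset.mem_Icc]
      constructor
      · rintro ⟨h1, h2⟩
        by_cases h3 : p ≤ w
        · exact Or.inl ⟨⟨h1.1, h3⟩, h2⟩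
        · exact Or.inr ⟨h1, h2, h3⟩
      · rintro (⟨h1, h2⟩ | ⟨h1, h2, h3⟩)
        · exact ⟨⟨h1.1, h1.2.trans hwz⟩, h2⟩
        · exact ⟨h1, h2⟩
    · rw [Finset.disjoint_left]
      intro p h1 h2
      simp only [Finset.mem_filter, Finset.mem_Icc] at h1 h2
      exact h2.2.2 h1.1.2
  have h3 : ∏ p ∈ (Finset.Icc 1 z).filter (fun p => p.Prime ∧ ¬ p ≤ w), (1 - 1 / (p : ℝ)) ≤
      ∏ p ∈ P.filter (fun p => ¬ p ≤ w), (1 - 1 / (p : ℝ)) := by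
    apply prod_mono
    · intro p hp
      exact (Finset.mem_filter.1 hp).2.1
    · intro p hp
      rw [Finset.mem_filter] at hp ⊢
      exact ⟨Finset.mem_Icc.2 ⟨(hP p hp.1).1.one_le, (hP p hp.1).2⟩, (hP p hp.1).1, hp.2⟩
  have hw0 := QQ_pos w
  have hz0 := QQ_pos z
  have h4 : 0 < ∏ p ∈ P.filter (fun p => p ≤ w), (1 - 1 / (p : ℝ)) :=
    prod_pos' fun p hp => (hP p (Finset.mem_filter.1 hp).1).1
  rw [hsplit, div_mul_eq_mul_div, le_div_iff₀ hz0]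
  nth_rewrite 1 [hQ]
  nlinarith [mul_pos hw0 h4]

/-- upper bound sieve -/
theorem sieve_upper (δ : ℝ) (hδ : 0 < δ) : ∃ C : ℝ, 1 ≤ C ∧ ∀ᶠ z : ℝ in atTop,
    ∀ (P : Finset ℕ), (∀ p ∈ P, p.Prime ∧ (p : ℝ) ≤ z) → ∀ (c : ℕ → ℕ) (N : ℕ), z ^ δ ≤ N →
      ∀ T : Finset ℕ, (∀ k ∈ T, (1 ≤ k ∧ k ≤ N) ∧ ∀ p ∈ P, ¬ k ≡ c p [MOD p]) →
      (#T : ℝ) ≤ C * (N * ∏ p ∈ P, (1 - 1 / (p : ℝ))) := by
  classical
  obtain ⟨C0, hC0, H⟩ := Pool.Agent.N792.fl_gen'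
  set b : ℕ := C0 * 2 with hb
  set K : ℕ := 2 * (2 * (C0 * b) + 1) with hK
  have hKpos : 0 < K := by rw [hK]; positivity
  have hKr : (0 : ℝ) < K := by exact_mod_cast hKpos
  -- exponent of the small primes
  obtain ⟨η, hη0, hη1, hηK⟩ : ∃ η : ℝ, 0 < η ∧ η < 1 ∧ η * K ≤ δ / 4 := by
    refine ⟨min (1 / 2) (δ / (4 * K)), by positivity, by
      exact lt_of_le_of_lt (min_le_left _ _) (by norm_num), ?_⟩
    calc min (1 / 2) (δ / (4 * K)) * K ≤ δ / (4 * K) * K := by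
          gcongr
          exact min_le_right _ _
      _ = δ / 4 := by field_simp
  have hq := QQ_cell 1 1 η 1 one_pos one_pos hη0 one_pos
  simp only [one_mul, Real.rpow_one] at hq
  have hq1 : ∀ᶠ z : ℝ in atTop, QQ ⌊z ^ η⌋₊ / QQ ⌊z⌋₊ < 2 / η :=
    hq.eventually_lt_const (by rw [div_lt_div_iff_of_pos_right hη0]; norm_num)
  have hq2 : ∀ᶠ z : ℝ in atTop, (QQ ⌊z⌋₊)⁻¹ / Real.log z < 4 := by
    apply QQ_real.eventually_lt_const
    have h1 : Real.eulerMascheroniConstant < 2 / 3 := Real.eulerMascheroniConstant_lt_two_thirds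
    have h2 : Real.exp Real.eulerMascheroniConstant < Real.exp 1 := Real.exp_lt_exp.2 (by linarith)
    have h3 := Real.exp_one_lt_d9
    linarith
  set M : ℝ := (C0 * 2 : ℝ) ^ (C0 * 2) * 3 * 2 ^ K with hM
  have hM0 : 0 < M := by
    have : (0 : ℝ) < C0 := by exact_mod_cast hC0
    positivity
  have hsm : ∀ᶠ z : ℝ in atTop, M * (4 * Real.log z) ≤ z ^ (δ / 2) := by
    have h1 := (isLittleO_log_rpow_atTop (show 0 < δ / 2 by positivity)).bound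
      (show (0 : ℝ) < 1 / (4 * M) by positivity)
    filter_upwards [h1, eventually_ge_atTop (1 : ℝ)] with z h2 h3
    rw [Real.norm_of_nonneg (Real.log_nonneg h3), Real.norm_of_nonneg (Real.rpow_nonneg (by linarith) _)] at h2
    calc M * (4 * Real.log z) = 4 * M * Real.log z := by ring
      _ ≤ 4 * M * (1 / (4 * M) * z ^ (δ / 2)) := by gcongr
      _ = z ^ (δ / 2) := by field_simp
  have hlarge : ∀ᶠ z : ℝ in atTop, 2 ≤ z ^ η := (tendsto_rpow_atTop hη0).eventually_ge_atTop 2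
  refine ⟨4 / η + 1, by
    have : 0 < 4 / η := by positivity
    linarith, ?_⟩
  filter_upwards [hq1, hq2, hsm, hlarge, eventually_gt_atTop (1 : ℝ)] with z h1 h2 h3 h4 h5
  intro P hP c N hN T hT
  have hz0 : 0 < z := by linarith
  have hlog : 0 < Real.log z := Real.log_pos h5
  -- the cut
  set w : ℕ := ⌊z ^ η⌋₊ with hw
  have hw2 : 2 ≤ w := Nat.le_floor (by exact_mod_cast h4)
  obtain ⟨J, hJ1, hJ2⟩ := exists_J w hw2
  have hP' : ∀ p ∈ P, p.Prime ∧ p ≤ ⌊z⌋₊ := fun p hp => ⟨(hP p hp).1, Nat.le_floor (hP p hp).2⟩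
  have hwz : w ≤ ⌊z⌋₊ := by
    apply Nat.floor_le_floor
    calc z ^ η ≤ z ^ (1 : ℝ) := Real.rpow_le_rpow_of_exponent_le h5.le hη1.le
      _ = z := Real.rpow_one z
  set P' : Finset ℕ := P.filter (fun p => p ≤ w) with hP'def
  set Om : ℕ → Finset ℕ := fun p => if p = 0 then ∅ else {c p % p} with hOm
  set S : Finset ℕ := (Ioc 0 N).filter (fun n => ∀ p ∈ P', n % p ∉ Om p) with hS
  have hcardOm : ∀ p ∈ P', #(Om p) = 1 := by
    intro p hp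
    have := (hP p (Finset.mem_filter.1 hp).1).1.pos
    rw [hOm]
    simp only
    rw [if_neg (by omega)]
    simp
  have key := H 1 b J b 1 0 N P' Om {0} S (by norm_num) (by rw [hb]) (by rw [hb]) le_rfl (Nat.zero_le _)
    (by simp) (fun p hp => ⟨(hP p (Finset.mem_filter.1 hp).1).1,
      ((Finset.mem_filter.1 hp).2).trans hJ1, by
        rw [Nat.dvd_one]
        exact (hP p (Finset.mem_filter.1 hp).1).1.one_lt.ne'⟩)
    (fun p hp => by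
      have := (hP p (Finset.mem_filter.1 hp).1).1.pos
      rw [hOm]
      simp only
      rw [if_neg (by omega)]
      simp only [Finset.singleton_subset_iff, Finset.mem_range]
      exact Nat.mod_lt _ this)
    (fun p hp _ => (hcardOm p hp).le)
    (fun n => by
      rw [hS, Finset.mem_filter, Finset.mem_Ioc]
      simp [Nat.mod_one])
  have hTS : T ⊆ S := by
    intro k hk
    obtain ⟨hk1, hk2⟩ := hT k hk
    rw [hS, Finset.mem_filter, Finset.mem_Ioc]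
    refine ⟨⟨hk1.1, hk1.2⟩, fun p hp => ?_⟩
    have hpp := (hP p (Finset.mem_filter.1 hp).1).1.pos
    rw [hOm]
    simp only
    rw [if_neg (by omega), Finset.mem_singleton]
    exact hk2 p (Finset.mem_filter.1 hp).1
  have hTcard : (#T : ℝ) ≤ #S := by exact_mod_cast Finset.card_le_card hTS
  have hprod : ∏ p ∈ P', (1 - (#(Om p) : ℝ) / p) = ∏ p ∈ P', (1 - 1 / (p : ℝ)) :=
    Finset.prod_congr rfl fun p hp => by rw [hcardOm p hp, Nat.cast_one]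
  rw [hprod] at key
  simp only [Nat.cast_zero, sub_zero, Finset.card_singleton, Nat.cast_one, div_one, mul_one, one_mul] at key
  set A := ∏ p ∈ P', (1 - 1 / (p : ℝ)) with hA
  set D := ∏ p ∈ P, (1 - 1 / (p : ℝ)) with hD
  have hA0 : 0 < A := prod_pos' fun p hp => (hP p (Finset.mem_filter.1 hp).1).1
  have hD0 : 0 < D := prod_pos' fun p hp => (hP p hp).1
  have hAD : A ≤ 2 / η * D := by
    refine (prod_small ⌊z⌋₊ w hP' hwz).trans ?_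
    exact mul_le_mul_of_nonneg_right h1.le hD0.le
  have hDQ : QQ ⌊z⌋₊ ≤ D := by
    unfold QQ
    apply prod_mono
    · intro p hp
      exact (Finset.mem_filter.1 hp).2
    · intro p hp
      rw [Finset.mem_filter, Finset.mem_Icc]
      exact ⟨⟨(hP' p hp).1.one_le, (hP' p hp).2⟩, (hP' p hp).1⟩
  have hQ0 := QQ_pos ⌊z⌋₊
  have hQl : 1 ≤ QQ ⌊z⌋₊ * (4 * Real.log z) := by
    rw [div_lt_iff₀ hlog] at h2
    have := mul_lt_mul_of_pos_left h2 hQ0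
    rw [mul_inv_cancel₀ hQ0.ne'] at this
    exact this.le
  have hN0 : (0 : ℝ) ≤ N := Nat.cast_nonneg _
  rw [abs_le] at key
  have hbhalf : (1 / 2 : ℝ) ^ b ≤ 1 := pow_le_one₀ (by norm_num) (by norm_num)
  -- the error term
  have hJw : ((2 : ℝ) ^ 2 ^ J) ≤ (w : ℝ) ^ 2 := by exact_mod_cast hJ2
  have hJ3 : ((J : ℝ) + 2) ≤ 3 * (2 : ℝ) ^ 2 ^ J := by
    have q1 : J + 2 ≤ 3 * 2 ^ 2 ^ J := by
      have := @Nat.lt_two_pow_self J
      have := @Nat.lt_two_pow_self (2 ^ J)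
      have : 1 ≤ 2 ^ 2 ^ J := Nat.one_le_two_pow
      omega
    exact_mod_cast q1
  have herr : ((b : ℕ) : ℝ) ^ b * ((J : ℝ) + 2) * ((2 ^ 2 ^ J : ℝ) ^ (C0 * b)) ^ 2 ≤ N * D := by
    have hb' : ((b : ℕ) : ℝ) = (C0 * 2 : ℝ) := by rw [hb]; push_cast; ring
    have e1 : ((b : ℕ) : ℝ) ^ b * ((J : ℝ) + 2) * ((2 ^ 2 ^ J : ℝ) ^ (C0 * b)) ^ 2 ≤
        ((b : ℕ) : ℝ) ^ b * (3 * (2 : ℝ) ^ 2 ^ J) * ((2 ^ 2 ^ J : ℝ) ^ (C0 * b)) ^ 2 := by gcongr
    have e2 : ((b : ℕ) : ℝ) ^ b * (3 * (2 : ℝ) ^ 2 ^ J) * ((2 ^ 2 ^ J : ℝ) ^ (C0 * b)) ^ 2 =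
        ((b : ℕ) : ℝ) ^ b * 3 * (2 ^ 2 ^ J : ℝ) ^ (2 * (C0 * b) + 1) := by ring
    have e3 : (2 ^ 2 ^ J : ℝ) ^ (2 * (C0 * b) + 1) ≤ (w : ℝ) ^ K := by
      rw [hK, pow_mul]
      exact pow_le_pow_left₀ (by positivity) hJw _
    have hww : (w : ℝ) ≤ z ^ η := Nat.floor_le (Real.rpow_nonneg hz0.le _)
    have e4 : (w : ℝ) ^ K ≤ z ^ (δ / 4) := by
      calc (w : ℝ) ^ K ≤ (z ^ η) ^ K := pow_le_pow_left₀ (Nat.cast_nonneg _) hww _
        _ = z ^ (η * K) := by rw [← Real.rpow_natCast, ← Real.rpow_mul hz0.le]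
        _ ≤ z ^ (δ / 4) := Real.rpow_le_rpow_of_exponent_le h5.le hηK
    have e5 : z ^ (δ / 4) ≤ z ^ (δ / 2) := Real.rpow_le_rpow_of_exponent_le h5.le (by linarith)
    have e6 : ((b : ℕ) : ℝ) ^ b * 3 ≤ M := by
      rw [hM, hb']
      have h21 : (1 : ℝ) ≤ 2 ^ K := one_le_pow₀ (by norm_num)
      have h22 : 0 ≤ (C0 * 2 : ℝ) ^ (C0 * 2) * 3 := by positivity
      nlinarith
    have e7 : M * z ^ (δ / 2) ≤ z ^ δ * QQ ⌊z⌋₊ := by
      have e8 : z ^ δ = z ^ (δ / 2) * z ^ (δ / 2) := by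
        rw [← Real.rpow_add hz0]; congr 1; ring
      have e9 : 0 < z ^ (δ / 2) := Real.rpow_pos_of_pos hz0 _
      have e10 : M ≤ z ^ (δ / 2) * QQ ⌊z⌋₊ := by
        calc M = M * 1 := by ring
          _ ≤ M * (QQ ⌊z⌋₊ * (4 * Real.log z)) := by gcongr
          _ = (M * (4 * Real.log z)) * QQ ⌊z⌋₊ := by ring
          _ ≤ z ^ (δ / 2) * QQ ⌊z⌋₊ := by gcongr
      calc M * z ^ (δ / 2) ≤ (z ^ (δ / 2) * QQ ⌊z⌋₊) * z ^ (δ / 2) := by gcongr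
        _ = z ^ δ * QQ ⌊z⌋₊ := by rw [e8]; ring
    calc _ ≤ ((b : ℕ) : ℝ) ^ b * 3 * (2 ^ 2 ^ J : ℝ) ^ (2 * (C0 * b) + 1) := by rw [← e2]; exact e1
      _ ≤ M * z ^ (δ / 2) := by
          apply mul_le_mul e6 (e3.trans (e4.trans e5)) (by positivity) hM0.le
      _ ≤ z ^ δ * QQ ⌊z⌋₊ := e7
      _ ≤ N * D := by gcongr
  have hkey := key.2
  have hND : (N : ℝ) * A ≤ N * (2 / η * D) := by gcongr
  have hNA0 : 0 ≤ (N : ℝ) * A := by positivity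
  calc (#T : ℝ) ≤ #S := hTcard
    _ ≤ N * A + ((1 / 2) ^ b * (N * A) + ((b : ℕ) : ℝ) ^ b * ((J : ℝ) + 2) * ((2 ^ 2 ^ J : ℝ) ^ (C0 * b)) ^ 2) := by
        linarith
    _ ≤ N * A + (1 * (N * A) + N * D) := by gcongr
    _ = 2 * (N * A) + N * D := by ring
    _ ≤ 2 * (N * (2 / η * D)) + N * D := by gcongr
    _ = (4 / η + 1) * (N * D) := by ring

end Pool.Agent.H39m
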