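import Mathlib
import Pool.Agent.H39m.Sv
import Pool.Agent.H510R2.Maier.MA8

set_option autoImplicit false

/-!
# Sifting by all primes `≤ z` and by almost all primes `≤ z`
-/

namespace Pool.Agent.H39m

open Finset Filter Topology
open Pool.Agent.H510R2.Maier (QQ QQ_pos QQ_cell QQ_real R1 R1_cell VV)
open Pool.Agent.H378R2 (PW WW GoodP GoodS yy mem_PW)

open Classical in
/-- number of the `1 ≤ h ≤ y` with `h ≢ r p (mod p)` for all primes `p ≤ z` -/
noncomputable def sifted (r : ℕ → ℕ) (z y : ℝ) : ℕ :=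
  #((Icc 1 ⌊y⌋₊).filter (fun h : ℕ => ∀ p : ℕ, p.Prime → (p : ℝ) ≤ z → ¬ h ≡ r p [MOD p]))

/-- relative density of the sifted set in `(0, y]` -/
noncomputable def density (r : ℕ → ℕ) (z y : ℝ) : ℝ :=
  sifted r z y / (y * ∏ p ∈ (Icc 1 ⌊z⌋₊).filter Nat.Prime, (1 - 1 / (p : ℝ)))

/-- the same for a finite set of primes -/
def cnt (P : Finset ℕ) (r : ℕ → ℕ) (Y : ℕ) : ℕ :=
  #((Icc 1 Y).filter (fun h => ∀ p ∈ P, ¬ h ≡ r p [MOD p]))

/-- invertible multiplication -/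
lemma exists_cls (p q s0 m : ℕ) (hp : p.Prime) (hq : q.Prime) (hpq : p ≠ q) :
    ∃ c : ℕ, ∀ k : ℕ, 1 ≤ k → k ≡ c [MOD p] → q * (k - 1) + s0 ≡ m [MOD p] := by
  have hco : q.Coprime p := (Nat.coprime_primes hq hp).2 (Ne.symm hpq)
  obtain ⟨u, hu⟩ := Nat.exists_mul_mod_eq_one_of_coprime hco hp.one_lt
  have hu' : q * u ≡ 1 [MOD p] := by
    unfold Nat.ModEq
    rw [hu.2, Nat.mod_eq_of_lt hp.one_lt]
  refine ⟨u * (m + q + s0 * (p - 1)), fun k hk hkc => ?_⟩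
  have h1 : q * k ≡ q * (u * (m + q + s0 * (p - 1))) [MOD p] := Nat.ModEq.mul_left _ hkc
  have h2 : q * (u * (m + q + s0 * (p - 1))) ≡ 1 * (m + q + s0 * (p - 1)) [MOD p] := by
    rw [← mul_assoc]
    exact Nat.ModEq.mul_right _ hu'
  have h3 : q * k + s0 ≡ 1 * (m + q + s0 * (p - 1)) + s0 [MOD p] := Nat.ModEq.add_right _ (h1.trans h2)
  have h4 : 1 * (m + q + s0 * (p - 1)) + s0 = (m + q) + p * s0 := by
    obtain ⟨p', rfl⟩ : ∃ p', p = p' + 1 := ⟨p - 1, by have := hp.one_lt; omega⟩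
    simp
    ring
  have h5 : (m + q) + p * s0 ≡ m + q [MOD p] := by
    unfold Nat.ModEq
    rw [Nat.add_mul_mod_self_left]
  rw [h4] at h3
  have h6 : q * k + s0 = (q * (k - 1) + s0) + q := by
    obtain ⟨k', rfl⟩ : ∃ k', k = k' + 1 := ⟨k - 1, by omega⟩
    simp
    ring
  rw [h6] at h3
  exact Nat.ModEq.add_right_cancel' q (h3.trans h5)

/-- the upper bound sieve at `z`, with exponent `δ` and constant `C` -/
def SU (δ C z : ℝ) : Prop := ∀ (P : Finset ℕ), (∀ p ∈ P, p.Prime ∧ (p : ℝ) ≤ z) →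
    ∀ (c : ℕ → ℕ) (N : ℕ), z ^ δ ≤ N →
      ∀ T : Finset ℕ, (∀ k ∈ T, (1 ≤ k ∧ k ≤ N) ∧ ∀ p ∈ P, ¬ k ≡ c p [MOD p]) →
      (#T : ℝ) ≤ C * (N * ∏ p ∈ P, (1 - 1 / (p : ℝ)))

/-- the sieve in a progression -/
lemma sieve_ap {δ C z : ℝ} (h : SU δ C z) {P : Finset ℕ} (hP : ∀ p ∈ P, p.Prime ∧ (p : ℝ) ≤ z)
    {q : ℕ} (hq : q.Prime) (hqP : q ∉ P) (r : ℕ → ℕ) (Y : ℕ) (hY : z ^ δ ≤ ((Y / q + 1 : ℕ) : ℝ)) :
    (#((Icc 1 Y).filter (fun h => h ≡ r q [MOD q] ∧ ∀ p ∈ P, ¬ h ≡ r p [MOD p])) : ℝ) ≤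
      C * (((Y / q + 1 : ℕ) : ℝ) * ∏ p ∈ P, (1 - 1 / (p : ℝ))) := by
  classical
  set A := (Icc 1 Y).filter (fun h => h ≡ r q [MOD q] ∧ ∀ p ∈ P, ¬ h ≡ r p [MOD p]) with hA
  have hc : ∀ p : ℕ, ∃ c : ℕ, p ∈ P → ∀ k : ℕ, 1 ≤ k → k ≡ c [MOD p] →
      q * (k - 1) + r q % q ≡ r p [MOD p] := by
    intro p
    by_cases hp : p ∈ P
    · obtain ⟨c, hc⟩ := exists_cls p q (r q % q) (r p) (hP p hp).1 hq (fun h => hqP (h ▸ hp))
      exact ⟨c, fun _ => hc⟩
    · exact ⟨0, fun h => absurd h hp⟩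
  choose c hc using hc
  have hinj : Set.InjOn (fun h : ℕ => h / q + 1) (A : Set ℕ) := by
    intro a ha b hb hab
    rw [Finset.mem_coe, hA, Finset.mem_filter] at ha hb
    simp only at hab
    have h1 : a % q = b % q := ha.2.1.trans hb.2.1.symm
    have h2 : a / q = b / q := by omega
    rw [← Nat.div_add_mod a q, ← Nat.div_add_mod b q, h1, h2]
  have hcard : #(A.image (fun h : ℕ => h / q + 1)) = #A := Finset.card_image_of_injOn hinj
  rw [← hcard]
  apply h P hP c (Y / q + 1) hY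
  intro k hk
  rw [Finset.mem_image] at hk
  obtain ⟨a, ha, rfl⟩ := hk
  rw [hA, Finset.mem_filter, Finset.mem_Icc] at ha
  refine ⟨⟨Nat.succ_le_succ (Nat.zero_le _), ?_⟩, fun p hp hcon => ?_⟩
  · exact Nat.succ_le_succ (Nat.div_le_div_right (c := q) ha.1.2)
  · have h1 := hc p hp (a / q + 1) (Nat.succ_le_succ (Nat.zero_le _)) hcon
    have h2 : q * (a / q + 1 - 1) + r q % q = a := by
      have h3 : a % q = r q % q := ha.2.1
      rw [← h3, Nat.add_sub_cancel]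
      exact Nat.div_add_mod a q
    rw [h2] at h1
    exact ha.2.2 p hp h1

lemma mem_all {z : ℝ} (hz : 0 ≤ z) {p : ℕ} :
    p ∈ (Icc 1 ⌊z⌋₊).filter Nat.Prime ↔ p.Prime ∧ (p : ℝ) ≤ z := by
  rw [Finset.mem_filter, Finset.mem_Icc]
  constructor
  · rintro ⟨h1, h2⟩
    exact ⟨h2, (Nat.le_floor_iff hz).1 h1.2⟩
  · rintro ⟨h1, h2⟩
    exact ⟨⟨h1.one_le, Nat.le_floor h2⟩, h1⟩

lemma sifted_eq (r : ℕ → ℕ) {z : ℝ} (hz : 0 ≤ z) (y : ℝ) :
    sifted r z y = cnt ((Icc 1 ⌊z⌋₊).filter Nat.Prime) r ⌊y⌋₊ := by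
  classical
  unfold sifted cnt
  congr 1
  ext h
  rw [Finset.mem_filter, Finset.mem_filter]
  refine and_congr_right fun _ => ?_
  constructor
  · intro h1 p hp
    exact h1 p ((mem_all hz).1 hp).1 ((mem_all hz).1 hp).2
  · intro h1 p hp hpz
    exact h1 p ((mem_all hz).2 ⟨hp, hpz⟩)

/-- crude upper bound -/
lemma cnt_upper {δ C z : ℝ} (h : SU δ C z) (hC : 0 ≤ C) (hδ : 0 < δ) (hz : 1 ≤ z) {P : Finset ℕ}
    (hP : ∀ p ∈ P, p.Prime ∧ (p : ℝ) ≤ z) (r : ℕ → ℕ) {y : ℝ} (hy : z ^ δ ≤ y) :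
    (cnt P r ⌊y⌋₊ : ℝ) ≤ 2 * C * (y * ∏ p ∈ P, (1 - 1 / (p : ℝ))) := by
  have hy1 : 1 ≤ y := (Real.one_le_rpow hz hδ.le).trans hy
  have h1 := h P hP r (⌊y⌋₊ + 1) (by
    push_cast
    linarith [Nat.lt_floor_add_one y]) ((Icc 1 ⌊y⌋₊).filter (fun h => ∀ p ∈ P, ¬ h ≡ r p [MOD p])) (by
    intro k hk
    rw [Finset.mem_filter, Finset.mem_Icc] at hk
    exact ⟨⟨hk.1.1, by omega⟩, hk.2⟩)
  have h2 : 0 < ∏ p ∈ P, (1 - 1 / (p : ℝ)) := prod_pos' fun p hp => (hP p hp).1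
  have h3 : ((⌊y⌋₊ + 1 : ℕ) : ℝ) ≤ 2 * y := by
    push_cast
    linarith [Nat.floor_le (show 0 ≤ y by linarith)]
  refine h1.trans ?_
  calc C * (((⌊y⌋₊ + 1 : ℕ) : ℝ) * ∏ p ∈ P, (1 - 1 / (p : ℝ)))
      ≤ C * ((2 * y) * ∏ p ∈ P, (1 - 1 / (p : ℝ))) := by gcongr
    _ = _ := by ring

/-- comparison of the two sieves -/
theorem compare {δ C z : ℝ} (h : SU δ C z) (hC : 1 ≤ C) (hδ : 0 < δ) (hz : 1 ≤ z) {P : Finset ℕ}
    (hP : ∀ p ∈ P, p.Prime ∧ (p : ℝ) ≤ z) (σ : ℝ)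
    (hσ : ∑ q ∈ ((Icc 1 ⌊z⌋₊).filter Nat.Prime) \ P, 1 / (q : ℝ) ≤ σ) (hσ2 : σ ≤ 1 / 2)
    (r : ℕ → ℕ) {y : ℝ} (hy : z ^ (1 + δ) ≤ y) :
    |(cnt P r ⌊y⌋₊ : ℝ) / (y * ∏ p ∈ P, (1 - 1 / (p : ℝ))) - density r z y| ≤ 4 * C * σ ∧
      density r z y ≤ 6 * C := by
  classical
  have hz0 : 0 < z := by linarith
  set A := (Icc 1 ⌊z⌋₊).filter Nat.Prime with hA
  set E := A \ P with hE
  have hPA : P ⊆ A := fun p hp => (mem_all hz0.le).2 (hP p hp)
  set D := ∏ p ∈ P, (1 - 1 / (p : ℝ)) with hD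
  set t := ∏ p ∈ E, (1 - 1 / (p : ℝ)) with ht
  have hEp : ∀ p ∈ E, p.Prime := fun p hp => ((mem_all hz0.le).1 (Finset.mem_sdiff.1 hp).1).1
  have hEz : ∀ p ∈ E, (p : ℝ) ≤ z := fun p hp => ((mem_all hz0.le).1 (Finset.mem_sdiff.1 hp).1).2
  have hD0 : 0 < D := prod_pos' fun p hp => (hP p hp).1
  have ht0 : 0 < t := prod_pos' hEp
  have ht1 : t ≤ 1 := prod_le_one' hEp
  have hAD : ∏ p ∈ A, (1 - 1 / (p : ℝ)) = t * D := (Finset.prod_sdiff hPA).symm
  have hzy : z ≤ y := by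
    refine le_trans ?_ hy
    calc z = z ^ (1 : ℝ) := (Real.rpow_one z).symm
      _ ≤ z ^ (1 + δ) := Real.rpow_le_rpow_of_exponent_le hz (by linarith)
  have hy0 : 0 < y := by linarith
  have hyδ : z ^ δ ≤ y := (Real.rpow_le_rpow_of_exponent_le hz (by linarith)).trans hy
  have hyD : 0 < y * D := by positivity
  set Y := ⌊y⌋₊ with hY
  -- sifted sets
  have hs : (sifted r z y : ℝ) = cnt A r Y := by rw [sifted_eq r hz0.le y]
  have h1 : (cnt A r Y : ℝ) ≤ cnt P r Y := by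
    unfold cnt
    have : (Icc 1 Y).filter (fun h => ∀ p ∈ A, ¬ h ≡ r p [MOD p]) ⊆
        (Icc 1 Y).filter (fun h => ∀ p ∈ P, ¬ h ≡ r p [MOD p]) := by
      intro k hk
      rw [Finset.mem_filter] at hk ⊢
      exact ⟨hk.1, fun p hp => hk.2 p (hPA hp)⟩
    exact_mod_cast Finset.card_le_card this
  have h2 : (cnt P r Y : ℝ) ≤ cnt A r Y +
      ∑ q ∈ E, (#((Icc 1 Y).filter (fun h => h ≡ r q [MOD q] ∧ ∀ p ∈ P, ¬ h ≡ r p [MOD p])) : ℝ) := by
    have hsub : (Icc 1 Y).filter (fun h => ∀ p ∈ P, ¬ h ≡ r p [MOD p]) ⊆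
        ((Icc 1 Y).filter (fun h => ∀ p ∈ A, ¬ h ≡ r p [MOD p])) ∪
          E.biUnion (fun q => (Icc 1 Y).filter (fun h => h ≡ r q [MOD q] ∧ ∀ p ∈ P, ¬ h ≡ r p [MOD p])) := by
      intro k hk
      rw [Finset.mem_filter] at hk
      rw [Finset.mem_union, Finset.mem_filter, Finset.mem_biUnion]
      by_cases hall : ∀ p ∈ A, ¬ k ≡ r p [MOD p]
      · exact Or.inl ⟨hk.1, hall⟩
      · push Not at hall
        obtain ⟨q, hq, hq2⟩ := hall
        right
        refine ⟨q, ?_, ?_⟩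
        · rw [hE, Finset.mem_sdiff]
          exact ⟨hq, fun hqP => hk.2 q hqP hq2⟩
        · rw [Finset.mem_filter]
          exact ⟨hk.1, hq2, hk.2⟩
    have h3 := (Finset.card_le_card hsub).trans (Finset.card_union_le _ _)
    have h4 : #(E.biUnion (fun q => (Icc 1 Y).filter (fun h => h ≡ r q [MOD q] ∧ ∀ p ∈ P, ¬ h ≡ r p [MOD p]))) ≤
        ∑ q ∈ E, #((Icc 1 Y).filter (fun h => h ≡ r q [MOD q] ∧ ∀ p ∈ P, ¬ h ≡ r p [MOD p])) :=
      Finset.card_biUnion_le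
    unfold cnt
    exact_mod_cast h3.trans (Nat.add_le_add_left h4 _)
  have h3 : ∑ q ∈ E, (#((Icc 1 Y).filter (fun h => h ≡ r q [MOD q] ∧ ∀ p ∈ P, ¬ h ≡ r p [MOD p])) : ℝ) ≤
      2 * C * σ * (y * D) := by
    calc _ ≤ ∑ q ∈ E, 2 * C * (y * D) * (1 / (q : ℝ)) := by
          refine Finset.sum_le_sum fun q hq => ?_
          have hqp := hEp q hq
          have hq0 : (0 : ℝ) < q := by exact_mod_cast hqp.pos
          have hfl : (Y / q : ℕ) = ⌊y / q⌋₊ := (Nat.floor_div_natCast y q).symm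
          have hlow : y / q ≤ ((Y / q + 1 : ℕ) : ℝ) := by
            rw [hfl]
            push_cast
            exact (Nat.lt_floor_add_one _).le
          have hup : ((Y / q + 1 : ℕ) : ℝ) ≤ 2 * (y / q) := by
            rw [hfl]
            push_cast
            have e1 := Nat.floor_le (show 0 ≤ y / q by positivity)
            have e2 : 1 ≤ y / q := by
              rw [le_div_iff₀ hq0, one_mul]
              exact (hEz q hq).trans hzy
            linarith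
          have hzd : z ^ δ ≤ y / q := by
            rw [le_div_iff₀ hq0]
            calc z ^ δ * q ≤ z ^ δ * z := by
                  have := hEz q hq
                  gcongr
              _ = z ^ (1 + δ) := by rw [Real.rpow_add hz0, Real.rpow_one]; ring
              _ ≤ y := hy
          refine (sieve_ap h hP hqp (Finset.mem_sdiff.1 hq).2 r Y (hzd.trans hlow)).trans ?_
          calc C * (((Y / q + 1 : ℕ) : ℝ) * D) ≤ C * ((2 * (y / q)) * D) := by gcongr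
            _ = 2 * C * (y * D) * (1 / (q : ℝ)) := by ring
      _ = 2 * C * (y * D) * ∑ q ∈ E, 1 / (q : ℝ) := by rw [Finset.mul_sum]
      _ ≤ 2 * C * (y * D) * σ := by gcongr
      _ = 2 * C * σ * (y * D) := by ring
  have h4 := cnt_upper h (by linarith) hδ hz hP r hyδ
  -- real numbers
  set a := (cnt P r Y : ℝ) / (y * D) with ha
  set s := (cnt A r Y : ℝ) / (y * D) with hsdef
  have hden : density r z y = s / t := by
    unfold density
    rw [hs, hAD, hsdef]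
    field_simp
  have hσ0 : 0 ≤ σ := le_trans (Finset.sum_nonneg fun q _ => by positivity) hσ
  have ha2 : a ≤ 2 * C := by
    rw [ha, div_le_iff₀ hyD]
    exact h4
  have hs0 : 0 ≤ s := by positivity
  have hsa : s ≤ a := by
    rw [ha, hsdef]
    gcongr
  have has : a - s ≤ 2 * C * σ := by
    rw [ha, hsdef, ← sub_div, div_le_iff₀ hyD]
    linarith
  have htσ : 1 - σ ≤ t := by
    have := Pool.Agent.H510R2.Maier.weier E (fun p => 1 / (p : ℝ)) (fun i _ => by positivity)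
      (fun i hi => by
        have : (1 : ℝ) ≤ i := by exact_mod_cast (hEp i hi).one_le
        exact div_le_one_of_le₀ this (by positivity))
    linarith
  have ht2 : 1 / 2 ≤ t := by linarith
  have hst : s / t - s ≤ 4 * C * σ := by
    have e1 : s / t - s = s * (1 - t) / t := by field_simp
    rw [e1, div_le_iff₀ ht0]
    have e2 : s * (1 - t) ≤ 2 * C * σ := by
      apply mul_le_mul (hsa.trans ha2) (by linarith) (by linarith) (by linarith)
    have e3 : 4 * C * σ * (1 / 2) ≤ 4 * C * σ * t := by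
      have : 0 ≤ 4 * C * σ := by positivity
      gcongr
    linarith
  have hst0 : s ≤ s / t := by
    rw [le_div_iff₀ ht0]
    nlinarith
  have hCσ : 0 ≤ C * σ := by positivity
  rw [hden]
  constructor
  · rw [abs_le]
    constructor
    · linarith
    · linarith
  · nlinarith

/-- the primes that are missing in the modulus -/
theorem missing (ε : ℝ) (hε : 0 < ε) : ∃ Z : ℕ, ∀ᶠ X : ℝ in atTop, ∀ (ps : ℕ) (S : Finset ℕ),
    GoodP Z ps → GoodS X S →
      ∑ q ∈ ((Icc 1 ⌊Real.log X⌋₊).filter Nat.Prime) \ PW X S ps, 1 / (q : ℝ) ≤ ε := by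
  classical
  obtain ⟨Z, hZ⟩ := exists_nat_gt (3 / ε)
  refine ⟨Z, ?_⟩
  have h1 := R1_cell 1 (1 / 1000) 1 1 one_pos (by norm_num) one_pos one_pos
  simp only [one_mul, Real.rpow_one, div_one, Real.log_one] at h1
  have h1' : ∀ᶠ L : ℝ in atTop, R1 ⌊L⌋₊ - R1 ⌊1 / 1000 * L⌋₊ < ε / 3 :=
    h1.eventually_lt_const (by positivity)
  have h2 : Tendsto (fun X : ℝ => 6 / (Real.log (Real.log X)) ^ 2) atTop (𝓝 0) := by
    have := ((tendsto_pow_atTop (two_ne_zero)).comp (Real.tendsto_log_atTop.comp Real.tendsto_log_atTop)).const_div_atTop 6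
    exact this
  have h2' : ∀ᶠ X : ℝ in atTop, 6 / (Real.log (Real.log X)) ^ 2 < ε / 3 :=
    h2.eventually_lt_const (by positivity)
  filter_upwards [Real.tendsto_log_atTop.eventually h1', h2',
    Real.tendsto_log_atTop.eventually_ge_atTop (1 : ℝ)] with X h3 h4 h5
  intro ps S hps hS
  set L := Real.log X with hL
  have hyy : yy X = ⌊1 / 1000 * L⌋₊ := by
    unfold yy
    rw [hL]
    congr 1
    ring
  set B := (Icc 1 ⌊L⌋₊).filter (fun p => p.Prime ∧ ¬ p ≤ yy X) with hB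
  have hsub : ((Icc 1 ⌊L⌋₊).filter Nat.Prime) \ PW X S ps ⊆
      S ∪ (if ps = 1 then ∅ else {ps}) ∪ B := by
    intro q hq
    rw [Finset.mem_sdiff, Finset.mem_filter, Finset.mem_Icc, mem_PW] at hq
    rw [Finset.mem_union, Finset.mem_union]
    by_cases hqy : q ≤ yy X
    · left
      by_cases hqS : q ∈ S
      · exact Or.inl hqS
      · right
        have hqps : q = ps := by
          by_contra hne
          exact hq.2 ⟨hqy, hq.1.2, hqS, hne⟩
        rw [if_neg (by rw [← hqps]; exact hq.1.2.one_lt.ne')]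
        rw [hqps]
        exact Finset.mem_singleton_self _
    · right
      rw [hB, Finset.mem_filter, Finset.mem_Icc]
      exact ⟨hq.1.1, hq.1.2, hqy⟩
  have hnn : ∀ q : ℕ, 0 ≤ 1 / (q : ℝ) := fun q => by positivity
  have hun : ∀ s t : Finset ℕ, ∑ q ∈ s ∪ t, 1 / (q : ℝ) ≤ ∑ q ∈ s, 1 / (q : ℝ) + ∑ q ∈ t, 1 / (q : ℝ) := by
    intro s t
    rw [← Finset.sum_union_inter]
    have : 0 ≤ ∑ q ∈ s ∩ t, 1 / (q : ℝ) := Finset.sum_nonneg fun q _ => hnn q
    linarith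
  have hsum := Finset.sum_le_sum_of_subset_of_nonneg hsub (f := fun q : ℕ => 1 / (q : ℝ)) (fun q _ _ => hnn q)
  have hS2 := hS.2
  have hps2 : ∑ q ∈ (if ps = 1 then (∅ : Finset ℕ) else {ps}), 1 / (q : ℝ) ≤ ε / 3 := by
    split_ifs with h
    · simp; positivity
    · rw [Finset.sum_singleton]
      rcases hps with h6 | h6
      · exact absurd h6 h
      · have h7 : (Z : ℝ) < ps := by exact_mod_cast h6.2
        have h8 : 0 < 3 / ε := by positivity
        rw [div_le_iff₀ (by linarith)]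
        have h9 : ε / 3 * (3 / ε) = 1 := by field_simp
        have h10 : ε / 3 * (3 / ε) ≤ ε / 3 * ps := by
          apply mul_le_mul_of_nonneg_left _ (by positivity)
          linarith
        linarith
  have hB2 : ∑ q ∈ B, 1 / (q : ℝ) = R1 ⌊L⌋₊ - R1 (yy X) := by
    unfold R1
    have hle : yy X ≤ ⌊L⌋₊ := by
      rw [hyy]
      apply Nat.floor_le_floor
      linarith
    have h11 : (Icc 1 ⌊L⌋₊).filter Nat.Prime = ((Icc 1 (yy X)).filter Nat.Prime) ∪ B := by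
      ext p
      simp only [hB, Finset.mem_filter, Finset.mem_union, Finset.mem_Icc]
      constructor
      · rintro ⟨h1, h2⟩
        by_cases h3 : p ≤ yy X
        · exact Or.inl ⟨⟨h1.1, h3⟩, h2⟩
        · exact Or.inr ⟨h1, h2, h3⟩
      · rintro (⟨h1, h2⟩ | ⟨h1, h2, h3⟩)
        · exact ⟨⟨h1.1, h1.2.trans hle⟩, h2⟩
        · exact ⟨h1, h2⟩
    rw [h11, Finset.sum_union]
    · ring
    · rw [Finset.disjoint_left]
      intro p hp1 hp2
      simp only [hB, Finset.mem_filter, Finset.mem_Icc] at hp1 hp2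
      exact hp2.2.2 hp1.1.2
  have h12 := hun (S ∪ (if ps = 1 then ∅ else {ps})) B
  have h13 := hun S (if ps = 1 then ∅ else {ps})
  rw [hyy] at hB2
  linarith

/-- the class of the modulus -/
lemma exists_r0 {X : ℝ} {S : Finset ℕ} {ps : ℕ} (r : ℕ → ℕ) :
    ∃ r0 : ℕ, ∀ Y : ℕ, VV (WW X S ps) r0 Y = cnt (PW X S ps) r Y := by
  classical
  have hpr : ∀ p ∈ PW X S ps, p.Prime := fun p hp => (mem_PW.1 hp).2.1
  obtain ⟨r0, hr0⟩ := Nat.chineseRemainderOfFinset (fun p => p - r p % p) (fun p => p) (PW X S ps)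
    (fun p hp => (hpr p hp).ne_zero) (fun p hp q hq hpq => (Nat.coprime_primes (hpr p hp) (hpr q hq)).2 hpq)
  refine ⟨r0, fun Y => ?_⟩
  unfold VV cnt WW
  congr 1
  refine Finset.filter_congr fun h _ => ?_
  rw [Nat.coprime_prod_right_iff]
  refine forall₂_congr fun p hp => ?_
  have hpp := hpr p hp
  rw [Nat.coprime_comm, hpp.coprime_iff_not_dvd, not_iff_not]
  have h1 : r0 ≡ p - r p % p [MOD p] := hr0 p hp
  have hlt := Nat.mod_lt (r p) hpp.pos
  constructor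
  · intro hd
    have h2 : r0 + h ≡ 0 [MOD p] := (Nat.modEq_zero_iff_dvd).2 hd
    have h3 : (p - r p % p) + h ≡ 0 [MOD p] := (Nat.ModEq.add_right h h1.symm).trans h2
    have h4 : (p - r p % p) + h + r p % p ≡ 0 + r p % p [MOD p] := Nat.ModEq.add_right _ h3
    have h5 : (p - r p % p) + h + r p % p = h + p := by omega
    rw [h5, zero_add] at h4
    have h6 : h + p ≡ h [MOD p] := by
      unfold Nat.ModEq
      simp
    exact (h6.symm.trans h4).trans (Nat.mod_modEq _ _)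
  · intro hh
    have h4 : (p - r p % p) + h ≡ (p - r p % p) + r p % p [MOD p] :=
      Nat.ModEq.add_left _ (hh.trans (Nat.mod_modEq _ _).symm)
    have h5 : (p - r p % p) + r p % p = p := by omega
    rw [h5] at h4
    have h6 : p ≡ 0 [MOD p] := by
      unfold Nat.ModEq
      simp
    have h7 : r0 + h ≡ 0 [MOD p] := ((Nat.ModEq.add_right h h1).trans h4).trans h6
    exact (Nat.modEq_zero_iff_dvd).1 h7

end Pool.Agent.H39m
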