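import Mathlib
import Pool.Agent.N610.MS.ROWS
import Pool.Agent.H39m.Sv

set_option autoImplicit false

/-!
# Rows of the Maier matrix in an arbitrary class (after `Pool.Agent.N610.MS.ROWS`)
-/

namespace Pool.Agent.H39m

open Finset Filter Topology
open Pool.Agent.H378R2
open Pool.Agent.H510R2.Maier
open Pool.Agent.N610.MS (lp)
open Pool.Agent.N610.MS.ROWS (thw_eq_lp ev_rows ev_M)

lemma ev_small (K : ℝ) : ∀ᶠ X : ℝ in atTop, K * Real.exp (Real.log X / 700) / X ≤ X ^ (-(9 / 10) : ℝ) := by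
  have h1 : Tendsto (fun L : ℝ => Real.exp (-(1 / 20) * L)) atTop (𝓝 0) := by
    apply Real.tendsto_exp_atBot.comp
    exact tendsto_id.const_mul_atTop_of_neg (by norm_num)
  have h2 : ∀ᶠ X : ℝ in atTop, Real.exp (-(1 / 20) * Real.log X) < 1 / (|K| + 1) :=
    Real.tendsto_log_atTop.eventually (h1.eventually_lt_const (by positivity))
  filter_upwards [h2, eventually_gt_atTop (1 : ℝ)] with X h3 h4
  have hX : 0 < X := by linarith
  have hl : 0 ≤ Real.log X := Real.log_nonneg h4.le
  have h5 : K ≤ |K| + 1 := by linarith [le_abs_self K]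
  have h6 : X ^ (-(9 / 10) : ℝ) = Real.exp (-(9 / 10) * Real.log X) := by
    rw [Real.rpow_def_of_pos hX, mul_comm]
  have h7 : (1 : ℝ) / X = Real.exp (-Real.log X) := by
    rw [Real.exp_neg, Real.exp_log hX, one_div]
  have h8 : K * Real.exp (Real.log X / 700) / X = K * (Real.exp (Real.log X / 700) * Real.exp (-Real.log X)) := by
    rw [← h7]; ring
  rw [h8, h6, ← Real.exp_add]
  have h9 : Real.exp (Real.log X / 700 + -Real.log X) ≤ Real.exp (-(9 / 10) * Real.log X) * Real.exp (-(1 / 20) * Real.log X) := by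
    rw [← Real.exp_add]
    apply Real.exp_le_exp.2
    nlinarith
  have h10 : (|K| + 1) * Real.exp (-(1 / 20) * Real.log X) ≤ 1 := by
    calc (|K| + 1) * Real.exp (-(1 / 20) * Real.log X) ≤ (|K| + 1) * (1 / (|K| + 1)) := by gcongr
      _ = 1 := by field_simp
  calc K * Real.exp (Real.log X / 700 + -Real.log X)
      ≤ (|K| + 1) * (Real.exp (-(9 / 10) * Real.log X) * Real.exp (-(1 / 20) * Real.log X)) := by
        apply mul_le_mul h5 h9 (Real.exp_pos _).le (by positivity)
    _ = Real.exp (-(9 / 10) * Real.log X) * ((|K| + 1) * Real.exp (-(1 / 20) * Real.log X)) := by ring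
    _ ≤ Real.exp (-(9 / 10) * Real.log X) * 1 := by gcongr
    _ = _ := mul_one _

set_option maxHeartbeats 4000000 in
/-- rows of the Maier matrix -/
theorem rowsG (A Z : ℕ) (ε : ℝ) (hε : 0 < ε) : ∀ᶠ X : ℝ in atTop,
    ∃ (ps : ℕ) (S : Finset ℕ), GoodP Z ps ∧ GoodS X S ∧ ∀ r : ℕ,
      ∃ (w : ℕ → ℝ) (ρ : ℝ), |ρ - 1| ≤ ε ∧
        (∀ n, 0 ≤ w n ∧ w n ≤ X ^ (-(9 / 10) : ℝ)) ∧
        (∀ n, w n ≠ 0 → X < n ∧ (n : ℝ) < 3 * X) ∧
        ∑ n ∈ Icc 1 ⌊3 * X⌋₊, w n = 1 ∧
        ∀ Y : ℕ, (Y : ℝ) ≤ X ^ (9 / 10 : ℝ) →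
          |∑ n ∈ Icc 1 ⌊3 * X⌋₊, w n * lp n Y - ρ * (VV (WW X S ps) r Y / BE (PW X S ps))| ≤
            Y / Real.log X ^ A := by
  classical
  obtain ⟨X1, hX1⟩ := bvrel_holds (A + 1) Z
  have hlogtop : Tendsto Real.log atTop atTop := Real.tendsto_log_atTop
  have hq2 : ∀ᶠ z : ℝ in atTop, (QQ ⌊z⌋₊)⁻¹ / Real.log z < 4 := by
    apply QQ_real.eventually_lt_const
    have h1 : Real.eulerMascheroniConstant < 2 / 3 := Real.eulerMascheroniConstant_lt_two_thirds
    have h2 : Real.exp Real.eulerMascheroniConstant < Real.exp 1 := Real.exp_lt_exp.2 (by linarith)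
    have h3 := Real.exp_one_lt_d9
    linarith
  have hq3 : ∀ᶠ z : ℝ in atTop, 320 * Real.log z ≤ z := by
    have h1 := Real.isLittleO_log_id_atTop.bound (show (0 : ℝ) < 1 / 320 by norm_num)
    filter_upwards [h1, eventually_ge_atTop (1 : ℝ)] with z h2 h3
    rw [Real.norm_of_nonneg (Real.log_nonneg h3), id, Real.norm_of_nonneg (by linarith)] at h2
    linarith
  filter_upwards [lphi_mphi (ε / 80) (by positivity), hlogtop.eventually (ev_rows A),
    ev_M (400 / ε) (by positivity), ev_M 200 (by norm_num), eventually_ge_atTop X1,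
    eventually_ge_atTop (1024 : ℝ), hlogtop.eventually_ge_atTop (160 : ℝ), ev_small 20,
    hlogtop.eventually hq2, hlogtop.eventually hq3] with X h1 h2 h4 h4' h5 h6 h7 hsm hQ1 hQ2
  obtain ⟨ps, S, hps, hS, hbv⟩ := hX1 X h5
  refine ⟨ps, S, hps, hS, fun r => ?_⟩
  have hXpos : 0 < X := by linarith
  have hPp : ∀ p ∈ PW X S ps, p.Prime := fun p hp => (mem_PW.1 hp).2.1
  set Bp : ℝ := BE (PW X S ps) with hBp
  have hB0 : 0 < Bp := BE_pos hPp
  have htot : (((WW X S ps).totient : ℕ) : ℝ) = (WW X S ps : ℝ) * Bp := totient_WW X S ps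
  have hW0 : 0 < WW X S ps := WW_pos X S ps
  have hEb0 := single_bound X (WW X S ps) ps (A + 1) (by linarith) _ hbv
  have hWp : ∀ p : ℕ, p.Prime → p ∣ WW X S ps → (p : ℝ) ≤ X := by
    intro p hp hpW
    have h8 := (mem_PW.1 ((prime_dvd_WW hp).1 hpW)).1
    have h9 : (p : ℝ) ≤ yy X := by exact_mod_cast h8
    have h10 : (yy X : ℝ) ≤ Real.log X / 1000 := Nat.floor_le (by
      have : 0 ≤ Real.log X := by linarith
      positivity)
    have h11 : Real.log X ≤ X := by
      have := Real.add_one_le_exp (Real.log X)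
      rw [Real.exp_log hXpos] at this
      linarith
    linarith
  have hWle : (WW X S ps : ℝ) ≤ Real.exp (Real.log X / 700) := WW_le X (by linarith) S ps
  set W := WW X S ps with hW
  have hWr : (0 : ℝ) < W := by exact_mod_cast hW0
  have hφ0 : (0 : ℝ) < W.totient := by exact_mod_cast Nat.totient_pos.2 hW0
  set L := Real.log X with hL
  have hexpL : Real.exp L = X := Real.exp_log hXpos
  have hL0 : 0 < L := by linarith
  -- lower bound for the product
  have hBL : 80 ≤ Bp * L := by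
    have e0 : QQ ⌊L⌋₊ ≤ Bp := by
      rw [hBp]
      unfold QQ BE
      apply prod_mono
      · intro p hp
        exact (Finset.mem_filter.1 hp).2
      · intro p hp
        rw [mem_PW] at hp
        rw [Finset.mem_filter, Finset.mem_Icc]
        refine ⟨⟨hp.2.1.one_le, hp.1.trans ?_⟩, hp.2.1⟩
        unfold yy
        apply Nat.floor_le_floor
        rw [← hL]
        linarith
    have e1 := QQ_pos ⌊L⌋₊
    have e2 : 0 < Real.log L := Real.log_pos (by linarith)
    rw [div_lt_iff₀ e2] at hQ1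
    have e3 := mul_lt_mul_of_pos_left hQ1 e1
    rw [mul_inv_cancel₀ e1.ne'] at e3
    have e4 : QQ ⌊L⌋₊ * (320 * Real.log L) ≤ QQ ⌊L⌋₊ * L := mul_le_mul_of_nonneg_left hQ2 e1.le
    have e5 : QQ ⌊L⌋₊ * L ≤ Bp * L := mul_le_mul_of_nonneg_right e0 hL0.le
    nlinarith
  have hsqrt : Real.sqrt X = Real.exp (L / 2) := by
    rw [← hexpL, Real.sqrt_eq_iff_mul_self_eq (Real.exp_pos _).le (Real.exp_pos _).le, ← Real.exp_add]
    congr 1; ring
  have hl4 : Real.log (4 * X) ≤ 2 * L := by
    rw [Real.log_mul (by norm_num) hXpos.ne']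
    have : Real.log 4 ≤ 2 := by
      rw [show (4 : ℝ) = 2 ^ 2 by norm_num, Real.log_pow]
      have := Real.log_two_lt_d9
      push_cast; linarith
    linarith
  have hl40 : 0 ≤ Real.log (4 * X) := Real.log_nonneg (by linarith)
  set E := X / ((W.totient : ℝ) * L ^ (A + 1)) with hE
  have hM1 := MPhi_ge X (by linarith)
  set M := MPhi X with hM
  have hM0 : 0 < M := by linarith
  have hnu := sum_nu X (by linarith) W r hW0 (by
    nlinarith [Real.exp_pos (L / 700)])
  rw [abs_le] at hnu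
  set N1 := ∑ n ∈ Icc 1 ⌊3 * X⌋₊, nu X W r n with hN1
  have hMW' : M * (1 / (W : ℝ)) = M / W := by ring
  rw [hMW'] at hnu
  have hXW : 200 * (W : ℝ) ≤ X := by nlinarith
  have hXWε : 400 * (W : ℝ) ≤ ε * X := by
    have c1 : 400 / ε * W ≤ X := by
      refine le_trans ?_ h4
      gcongr
    calc 400 * (W : ℝ) = ε * (400 / ε * W) := by field_simp
      _ ≤ ε * X := by gcongr
  have hN1ge : X / (40 * W) ≤ N1 := by
    have c1 : X / (20 * W) ≤ M / W := by
      rw [div_le_div_iff₀ (by positivity) hWr]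
      nlinarith
    have c2 : 5 ≤ X / (40 * W) := by
      rw [le_div_iff₀ (by positivity)]
      linarith
    have c3 : X / (20 * W) = X / (40 * W) + X / (40 * W) := by field_simp; ring
    linarith [hnu.1]
  have hN10 : 0 < N1 := lt_of_lt_of_le (by positivity) hN1ge
  refine ⟨fun n => nu X W r n / N1, LPhi X / (W * N1), ?_, ?_, ?_, ?_, ?_⟩
  · -- rho
    have c1 : |LPhi X - W * N1| ≤ ε / 80 * X + 5 * W := by
      have c2 : |M - W * N1| ≤ 5 * W := by
        rw [abs_le]
        have e1 : W * (M / W) = M := by field_simp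
        constructor
        · have := mul_le_mul_of_nonneg_left hnu.2 hWr.le
          rw [mul_sub, e1] at this
          linarith
        · have := mul_le_mul_of_nonneg_left hnu.1 hWr.le
          rw [mul_sub, e1] at this
          linarith
      calc |LPhi X - W * N1| = |(LPhi X - M) + (M - W * N1)| := by ring_nf
        _ ≤ |LPhi X - M| + |M - W * N1| := abs_add_le _ _
        _ ≤ _ := add_le_add h1 c2
    have c3 : X / 40 ≤ W * N1 := by
      have := mul_le_mul_of_nonneg_left hN1ge hWr.le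
      have e1 : (W : ℝ) * (X / (40 * W)) = X / 40 := by field_simp
      linarith
    have c4 : 0 < W * N1 := by positivity
    have e1 : LPhi X / (W * N1) - 1 = (LPhi X - W * N1) / (W * N1) := by field_simp
    rw [e1, abs_div, abs_of_pos c4, div_le_iff₀ c4]
    refine c1.trans ?_
    have c5 : ε * (X / 40) ≤ ε * (W * N1) := mul_le_mul_of_nonneg_left c3 hε.le
    linarith
  · intro n
    have c1 : 0 ≤ nu X W r n := nu_nonneg _ _ _ _
    refine ⟨by positivity, ?_⟩
    have c2 : nu X W r n ≤ 1 / 2 := by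
      unfold nu
      split_ifs
      · exact Phi_le_half _
      · norm_num
    have c4 : nu X W r n / N1 ≤ 20 * (W : ℝ) / X := by
      rw [div_le_iff₀ hN10]
      have c3 : 20 * (W : ℝ) / X * (X / (40 * W)) ≤ 20 * (W : ℝ) / X * N1 :=
        mul_le_mul_of_nonneg_left hN1ge (by positivity)
      have e1 : 20 * (W : ℝ) / X * (X / (40 * W)) = 1 / 2 := by field_simp; norm_num
      linarith
    refine c4.trans (le_trans ?_ hsm)
    gcongr
  · intro n hn
    have c1 : nu X W r n ≠ 0 := by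
      intro h
      apply hn
      show nu X W r n / N1 = 0
      rw [h, zero_div]
    by_contra hc
    exact c1 (nu_eq_zero hXpos hc)
  · show ∑ n ∈ Icc 1 ⌊3 * X⌋₊, nu X W r n / N1 = 1
    rw [← Finset.sum_div, div_self hN10.ne']
  · intro Y hY
    have hY0 : (0 : ℝ) ≤ Y := Nat.cast_nonneg _
    have hXr : X ^ (9 / 10 : ℝ) = Real.exp (9 / 10 * L) := by
      rw [Real.rpow_def_of_pos hXpos, mul_comm]
    have hY2 : (Y : ℝ) ≤ X / 2 := by
      refine hY.trans ?_
      have c1 : (2 : ℝ) ≤ X ^ (1 / 10 : ℝ) := by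
        have c2 : ((1024 : ℝ)) ^ (1 / 10 : ℝ) ≤ X ^ (1 / 10 : ℝ) :=
          Real.rpow_le_rpow (by norm_num) h6 (by norm_num)
        have c3 : ((1024 : ℝ)) ^ (1 / 10 : ℝ) = 2 := by
          rw [show (1024 : ℝ) = 2 ^ (10 : ℝ) by norm_num, ← Real.rpow_mul (by norm_num)]
          norm_num
        linarith
      have c4 : X ^ (9 / 10 : ℝ) * X ^ (1 / 10 : ℝ) = X := by
        rw [← Real.rpow_add hXpos]; norm_num
      have c5 : 0 < X ^ (9 / 10 : ℝ) := Real.rpow_pos_of_pos hXpos _
      rw [le_div_iff₀ (by norm_num)]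
      calc X ^ (9 / 10 : ℝ) * 2 ≤ X ^ (9 / 10 : ℝ) * X ^ (1 / 10 : ℝ) := by gcongr
        _ = X := c4
    have hmat := matrix_sum X (by linarith) W r Y hY2 hWp E hEb0
    have e1 : ∑ n ∈ Icc 1 ⌊3 * X⌋₊, nu X W r n / N1 * lp n Y -
        LPhi X / (W * N1) * (VV W r Y / Bp) =
        (∑ n ∈ Icc 1 ⌊3 * X⌋₊, nu X W r n * thw n Y -
          (VV W r Y : ℝ) * (LPhi X * (1 / (Nat.totient W : ℝ)))) / N1 := by
      rw [htot, sub_div, Finset.sum_div]
      congr 1
      · refine Finset.sum_congr rfl fun n _ => ?_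
        rw [thw_eq_lp]
        ring
      · field_simp
    show |∑ n ∈ Icc 1 ⌊3 * X⌋₊, nu X W r n / N1 * lp n Y - LPhi X / (W * N1) * (VV W r Y / Bp)| ≤ _
    rw [e1, abs_div, abs_of_pos hN10, div_le_iff₀ hN10]
    refine hmat.trans ?_
    -- the error
    have g0 : Y * (E + (4 * Y * Real.log (4 * X) + 4 * Real.sqrt X * Real.log (4 * X))) ≤
        Y * (X / (W.totient * L ^ (A + 1)) + 24 * L * Real.exp (9 / 10 * L)) := by
      apply mul_le_mul_of_nonneg_left _ hY0
      rw [hE]
      have g1 : Real.sqrt X ≤ Real.exp (9 / 10 * L) := by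
        rw [hsqrt]
        exact Real.exp_le_exp.2 (by linarith)
      have g2 : (Y : ℝ) ≤ Real.exp (9 / 10 * L) := by rw [← hXr]; exact hY
      have g3 : 4 * Real.sqrt X * Real.log (4 * X) ≤ 4 * Real.exp (9 / 10 * L) * (2 * L) := by gcongr
      have g4 : 4 * Y * Real.log (4 * X) ≤ 4 * Real.exp (9 / 10 * L) * (2 * L) := by gcongr
      have g5 : 0 ≤ Real.exp (9 / 10 * L) * L := by positivity
      linarith
    refine g0.trans ?_
    have g5 : Y / L ^ A * (X / (40 * W)) ≤ Y / L ^ A * N1 :=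
      mul_le_mul_of_nonneg_left hN1ge (by positivity)
    refine le_trans ?_ g5
    have g6 : X / (W.totient * L ^ (A + 1)) ≤ X / (80 * W * L ^ A) := by
      have g7 : 80 * W * L ^ A ≤ W.totient * L ^ (A + 1) := by
        rw [htot, pow_succ]
        have g9 : 0 < W * L ^ A := by positivity
        nlinarith
      exact div_le_div_of_nonneg_left hXpos.le (by positivity) g7
    have g10 : 24 * L * Real.exp (9 / 10 * L) ≤ X / (80 * W * L ^ A) := by
      rw [le_div_iff₀ (by positivity)]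
      calc 24 * L * Real.exp (9 / 10 * L) * (80 * W * L ^ A) =
          1920 * L ^ (A + 1) * Real.exp (9 / 10 * L) * W := by ring
        _ ≤ 1920 * L ^ (A + 1) * Real.exp (9 / 10 * L) * Real.exp (L / 700) := by gcongr
        _ ≤ Real.exp L := h2
        _ = X := hexpL
    calc Y * (X / (W.totient * L ^ (A + 1)) + 24 * L * Real.exp (9 / 10 * L)) ≤
        Y * (X / (80 * W * L ^ A) + X / (80 * W * L ^ A)) := by gcongr
      _ = Y / L ^ A * (X / (40 * W)) := by field_simp; ring

end Pool.Agent.H39m
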