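import Mathlib
import Pool.Agent.N610.MS.MAIN
import Pool.Agent.H39m.Cmp
import Pool.Agent.H39m.Rw

set_option autoImplicit false

/-!
# The primes imitate every sieve of intervals
-/

namespace Pool.Agent.H39m

open Finset Filter Topology
open Pool.Agent.H378R2 (PW WW BE GoodP GoodS yy mem_PW)
open Pool.Agent.H510R2.Maier (QQ QQ_pos QQ_cell QQ_real VV)
open Pool.Agent.N610.MS (lp)
open Pool.Agent.N610.MS.MAIN (lp_R cnt_eq)

/-- `R(x, y) = (π(x + y) - π(x)) / (y / log x)` -/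
noncomputable def R (x y : ℝ) : ℝ :=
  ((Nat.primeCounting ⌊x + y⌋₊ : ℝ) - Nat.primeCounting ⌊x⌋₊) / (y / Real.log x)

lemma QQ_zero (ε : ℝ) (hε : 0 < ε) : ∀ᶠ z : ℝ in atTop, QQ ⌊z⌋₊ ≤ ε := by
  have h1 : ∀ᶠ z : ℝ in atTop, 1 / 2 < (QQ ⌊z⌋₊)⁻¹ / Real.log z := by
    apply QQ_real.eventually_const_lt
    have := Real.one_le_exp (show 0 ≤ Real.eulerMascheroniConstant from by
      linarith [Real.one_half_lt_eulerMascheroniConstant])
    linarith
  filter_upwards [h1, Real.tendsto_log_atTop.eventually_ge_atTop (2 / ε)] with z h2 h3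
  have hQ := QQ_pos ⌊z⌋₊
  have hl : 0 < Real.log z := lt_of_lt_of_le (by positivity) h3
  rw [lt_div_iff₀ hl] at h2
  have h4 : QQ ⌊z⌋₊ * (1 / 2 * Real.log z) < 1 := by
    calc QQ ⌊z⌋₊ * (1 / 2 * Real.log z) < QQ ⌊z⌋₊ * (QQ ⌊z⌋₊)⁻¹ := by gcongr
      _ = 1 := mul_inv_cancel₀ hQ.ne'
  have h5 : QQ ⌊z⌋₊ * (1 / ε) ≤ QQ ⌊z⌋₊ * (1 / 2 * Real.log z) := by
    gcongr
    calc 1 / ε = 1 / 2 * (2 / ε) := by ring
      _ ≤ 1 / 2 * Real.log z := by gcongr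
  have h6 : QQ ⌊z⌋₊ * (1 / ε) ≤ 1 := by linarith
  calc QQ ⌊z⌋₊ = (QQ ⌊z⌋₊ * (1 / ε)) * ε := by field_simp
    _ ≤ 1 * ε := by gcongr
    _ = ε := one_mul _

/-- primes in a short interval -/
lemma primes_short {δ C z : ℝ} (h : SU δ C z) (hC : 0 ≤ C) (hz : 0 ≤ z) (m N M : ℕ) (hm : z ≤ m) (hM : M ≤ N)
    (hN : z ^ δ ≤ N) :
    (#((Ioc m (m + M)).filter Nat.Prime) : ℝ) ≤ C * (N * QQ ⌊z⌋₊) := by
  classical
  have hcard : #(((Ioc m (m + M)).filter Nat.Prime).image (fun q => q - m)) = #((Ioc m (m + M)).filter Nat.Prime) := by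
    apply Finset.card_image_of_injOn
    intro a ha b hb hab
    rw [Finset.mem_coe, Finset.mem_filter, Finset.mem_Ioc] at ha hb
    simp only at hab
    omega
  rw [← hcard]
  unfold QQ
  apply h ((Icc 1 ⌊z⌋₊).filter Nat.Prime) (fun p hp => (mem_all hz).1 hp) (fun p => p - m % p) N hN
  intro k hk
  rw [Finset.mem_image] at hk
  obtain ⟨q, hq, rfl⟩ := hk
  rw [Finset.mem_filter, Finset.mem_Ioc] at hq
  refine ⟨by omega, fun p hp hcon => ?_⟩
  obtain ⟨hpp, hpz⟩ := (mem_all hz).1 hp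
  have hlt := Nat.mod_lt m hpp.pos
  have h1 : (q - m) + m ≡ (p - m % p) + m % p [MOD p] :=
    Nat.ModEq.add hcon (Nat.mod_modEq m p).symm
  have h2 : (q - m) + m = q := by omega
  have h3 : (p - m % p) + m % p = p := by omega
  rw [h2, h3] at h1
  have h4 : p ∣ q := by
    rw [← Nat.modEq_zero_iff_dvd]
    refine h1.trans ?_
    unfold Nat.ModEq
    simp
  have h5 := (Nat.prime_dvd_prime_iff_eq hpp hq.2).1 h4
  have h6 : (m : ℝ) < q := by exact_mod_cast hq.1.1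
  rw [← h5] at h6
  linarith

lemma R_nat {n : ℕ} {y : ℝ} (hy : 0 ≤ y) :
    R n y = (#((Ioc n (n + ⌊y⌋₊)).filter Nat.Prime) : ℝ) / (y / Real.log n) := by
  unfold R
  have e1 : ⌊(n : ℝ) + y⌋₊ = n + ⌊y⌋₊ := by
    rw [add_comm, Nat.floor_add_natCast hy, add_comm]
  rw [e1, Nat.floor_natCast, cnt_eq]

/-- the length `(log n) ^ t` against `(log X) ^ t` -/
theorem pointwise (δ B ε : ℝ) (hδ : 0 < δ) (hB : 1 ≤ B) (hε : 0 < ε) : ∀ᶠ X : ℝ in atTop, ∀ n : ℕ, X < n →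
    (n : ℝ) < 3 * X → ∀ t : ℝ, 1 + δ ≤ t → t ≤ B →
      |R n (Real.log n ^ t) - R n (Real.log X ^ t)| ≤ ε := by
  classical
  obtain ⟨C, hC, hev⟩ := sieve_upper δ hδ
  have hevL := Real.tendsto_log_atTop.eventually hev
  have hQ := Real.tendsto_log_atTop.eventually (QQ_zero (ε / (40 * C * B)) (by positivity))
  filter_upwards [hevL, hQ, Real.tendsto_log_atTop.eventually_ge_atTop (4 * B), eventually_gt_atTop (1 : ℝ)]
    with X hSU hQ2 hL4 hX1
  intro n hn1 hn2 t ht1 ht2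
  have hSU' : SU δ C (Real.log X) := hSU
  set L := Real.log X with hL
  have hX0 : 0 < X := by linarith
  have hn0 : (0 : ℝ) < n := by linarith
  have hL4' : 4 ≤ L := by linarith
  have hL0 : 0 < L := by linarith
  set L' := Real.log n with hL'
  have hLL' : L ≤ L' := Real.log_le_log hX0 hn1.le
  have hL'2 : L' ≤ L + 2 := by
    have h1 : L' ≤ Real.log (3 * X) := Real.log_le_log hn0 hn2.le
    rw [Real.log_mul (by norm_num) hX0.ne'] at h1
    have h2 : Real.log 3 ≤ 2 := by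
      have := Real.log_le_sub_one_of_pos (show (0 : ℝ) < 3 by norm_num)
      linarith
    linarith
  have hL'0 : 0 < L' := by linarith
  have ht0 : 0 < t := by linarith
  set y1 := L ^ t with hy1
  set y2 := L' ^ t with hy2
  have hy10 : 0 < y1 := Real.rpow_pos_of_pos hL0 _
  have hy20 : 0 < y2 := Real.rpow_pos_of_pos hL'0 _
  have hy12 : y1 ≤ y2 := Real.rpow_le_rpow hL0.le hLL' ht0.le
  -- y2 ≤ y1 (1 + 4 B / L)
  have hy2u : y2 ≤ y1 * (1 + 4 * B / L) := by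
    have h1 : L' ≤ L * (1 + 2 / L) := by
      have : L * (1 + 2 / L) = L + 2 := by field_simp
      linarith
    have h2 : y2 ≤ (L * (1 + 2 / L)) ^ t := Real.rpow_le_rpow hL'0.le h1 ht0.le
    rw [Real.mul_rpow hL0.le (by positivity)] at h2
    refine h2.trans ?_
    apply mul_le_mul_of_nonneg_left _ hy10.le
    have h3 : (1 + 2 / L) ^ t ≤ (1 + 2 / L) ^ B :=
      Real.rpow_le_rpow_of_exponent_le (by
        have : 0 < 2 / L := by positivity
        linarith) ht2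
    have h4 : (1 + 2 / L) ^ B ≤ Real.exp (2 * B / L) := by
      rw [Real.rpow_def_of_pos (by positivity)]
      apply Real.exp_le_exp.2
      have h5 : Real.log (1 + 2 / L) ≤ 2 / L := by
        have := Real.log_le_sub_one_of_pos (show (0 : ℝ) < 1 + 2 / L by positivity)
        linarith
      calc Real.log (1 + 2 / L) * B ≤ 2 / L * B := by gcongr
        _ = 2 * B / L := by ring
    have h6 : 2 * B / L ≤ 1 := by
      rw [div_le_one hL0]; linarith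
    have h7 : Real.exp (2 * B / L) ≤ 1 + 2 * B / L + (2 * B / L) ^ 2 := by
      have h8 : 0 ≤ 2 * B / L := by positivity
      have := Real.abs_exp_sub_one_sub_id_le (x := 2 * B / L) (by rw [abs_of_nonneg h8]; exact h6)
      rw [abs_le] at this
      linarith [this.2]
    have h9 : (2 * B / L) ^ 2 ≤ 2 * B / L := by
      have h8 : 0 ≤ 2 * B / L := by positivity
      nlinarith
    have h10 : 4 * B / L = 2 * B / L + 2 * B / L := by ring
    linarith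
  have hyd : y2 - y1 ≤ 4 * B * (y1 / L) := by
    have : y1 * (1 + 4 * B / L) = y1 + 4 * B * (y1 / L) := by ring
    linarith
  -- y1 / L ≥ L ^ δ ≥ 1
  have hLd1 : 1 ≤ L ^ δ := Real.one_le_rpow (by linarith) hδ.le
  have hy1L : L ^ δ ≤ y1 / L := by
    rw [le_div_iff₀ hL0, hy1]
    calc L ^ δ * L = L ^ (δ + 1) := by rw [Real.rpow_add hL0, Real.rpow_one]
      _ ≤ L ^ t := Real.rpow_le_rpow_of_exponent_le (by linarith) (by linarith)
  have hy1L' : y1 / L ≤ y1 := div_le_self hy10.le (by linarith)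
  have hQ0 := QQ_pos ⌊L⌋₊
  have hnL : L ≤ (n : ℝ) := by
    have := Real.add_one_le_exp L
    rw [hL, Real.exp_log hX0] at this
    linarith
  set F := fun Y : ℕ => #((Ioc n (n + Y)).filter Nat.Prime) with hF
  -- number of primes up to y1
  have hc1 : (F ⌊y1⌋₊ : ℝ) ≤ 2 * C * (y1 * QQ ⌊L⌋₊) := by
    have h1 := primes_short hSU' (by linarith) hL0.le n (⌊y1⌋₊ + 1) ⌊y1⌋₊ hnL (by omega) (by
      push_cast
      linarith [Nat.lt_floor_add_one y1])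
    have h2 : ((⌊y1⌋₊ + 1 : ℕ) : ℝ) ≤ 2 * y1 := by
      push_cast
      linarith [Nat.floor_le hy10.le]
    refine h1.trans ?_
    calc C * (((⌊y1⌋₊ + 1 : ℕ) : ℝ) * QQ ⌊L⌋₊) ≤ C * ((2 * y1) * QQ ⌊L⌋₊) := by gcongr
      _ = _ := by ring
  -- number of primes between y1 and y2
  have hfl : ⌊y1⌋₊ ≤ ⌊y2⌋₊ := Nat.floor_le_floor hy12
  obtain ⟨M, hM⟩ : ∃ M, ⌊y2⌋₊ = ⌊y1⌋₊ + M := ⟨⌊y2⌋₊ - ⌊y1⌋₊, by omega⟩
  have hMr : (M : ℝ) ≤ 4 * B * (y1 / L) + 1 := by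
    have h1 : ((⌊y2⌋₊ : ℕ) : ℝ) = ⌊y1⌋₊ + M := by exact_mod_cast hM
    have h2 := Nat.floor_le hy20.le
    have h3 := Nat.lt_floor_add_one y1
    linarith
  have hsplit : F ⌊y2⌋₊ = F ⌊y1⌋₊ + #((Ioc (n + ⌊y1⌋₊) (n + ⌊y1⌋₊ + M)).filter Nat.Prime) := by
    rw [hF]
    simp only
    rw [hM, ← Finset.card_union_of_disjoint]
    · congr 1
      ext m
      simp only [Finset.mem_union, Finset.mem_filter, Finset.mem_Ioc]
      constructor
      · rintro ⟨h1, h2⟩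
        by_cases h3 : m ≤ n + ⌊y1⌋₊
        · exact Or.inl ⟨⟨h1.1, h3⟩, h2⟩
        · exact Or.inr ⟨⟨by omega, by omega⟩, h2⟩
      · rintro (⟨h1, h2⟩ | ⟨h1, h2⟩)
        · exact ⟨⟨h1.1, by omega⟩, h2⟩
        · exact ⟨⟨by omega, by omega⟩, h2⟩
    · rw [Finset.disjoint_left]
      intro m hm hm'
      simp only [Finset.mem_filter, Finset.mem_Ioc] at hm hm'
      omega
  have hc2 : (#((Ioc (n + ⌊y1⌋₊) (n + ⌊y1⌋₊ + M)).filter Nat.Prime) : ℝ) ≤
      7 * B * C * (y1 / L * QQ ⌊L⌋₊) := by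
    have h4B : 1 ≤ y1 / L := hLd1.trans hy1L
    set N := ⌊4 * B * (y1 / L)⌋₊ + 2 with hN
    have hNlow : 4 * B * (y1 / L) + 1 ≤ (N : ℝ) := by
      rw [hN]; push_cast
      linarith [Nat.lt_floor_add_one (4 * B * (y1 / L))]
    have hNup : (N : ℝ) ≤ 7 * B * (y1 / L) := by
      rw [hN]; push_cast
      have := Nat.floor_le (show 0 ≤ 4 * B * (y1 / L) by positivity)
      nlinarith
    have h1 := primes_short hSU' (by linarith) hL0.le (n + ⌊y1⌋₊) N M (by push_cast; linarith [show (0:ℝ) ≤ ⌊y1⌋₊ from Nat.cast_nonneg _])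
      (by
        have : (M : ℝ) ≤ N := hMr.trans hNlow
        exact_mod_cast this) (by nlinarith)
    refine h1.trans ?_
    calc C * ((N : ℝ) * QQ ⌊L⌋₊) ≤ C * ((7 * B * (y1 / L)) * QQ ⌊L⌋₊) := by gcongr
      _ = _ := by ring
  rw [R_nat hy20.le, R_nat hy10.le]
  change |(F ⌊y2⌋₊ : ℝ) / (y2 / L') - (F ⌊y1⌋₊ : ℝ) / (y1 / L')| ≤ ε
  have hF2 : (F ⌊y2⌋₊ : ℝ) = F ⌊y1⌋₊ + #((Ioc (n + ⌊y1⌋₊) (n + ⌊y1⌋₊ + M)).filter Nat.Prime) := by
    exact_mod_cast hsplit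
  set G : ℝ := (#((Ioc (n + ⌊y1⌋₊) (n + ⌊y1⌋₊ + M)).filter Nat.Prime) : ℝ) with hG
  have hG0 : 0 ≤ G := Nat.cast_nonneg _
  set f1 : ℝ := (F ⌊y1⌋₊ : ℝ) with hf1
  have hf10 : 0 ≤ f1 := Nat.cast_nonneg _
  rw [hF2]
  have e1 : (f1 + G) / (y2 / L') - f1 / (y1 / L') = L' * (G / y2 - f1 * (y2 - y1) / (y1 * y2)) := by
    field_simp
    ring
  rw [e1, abs_mul, abs_of_pos hL'0]
  have h1 : 0 ≤ G / y2 := by positivity
  have h2 : 0 ≤ f1 * (y2 - y1) / (y1 * y2) := by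
    apply div_nonneg (mul_nonneg hf10 (by linarith)) (by positivity)
  have h3 : G / y2 ≤ 7 * B * C * (QQ ⌊L⌋₊ / L) := by
    rw [div_le_iff₀ hy20]
    refine hc2.trans ?_
    calc 7 * B * C * (y1 / L * QQ ⌊L⌋₊) = 7 * B * C * (QQ ⌊L⌋₊ / L) * y1 := by ring
      _ ≤ 7 * B * C * (QQ ⌊L⌋₊ / L) * y2 := by gcongr
  have h4 : f1 * (y2 - y1) / (y1 * y2) ≤ 8 * B * C * (QQ ⌊L⌋₊ / L) := by
    rw [div_le_iff₀ (by positivity)]
    calc f1 * (y2 - y1) ≤ (2 * C * (y1 * QQ ⌊L⌋₊)) * (4 * B * (y1 / L)) := by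
          apply mul_le_mul hc1 hyd (by linarith) (by positivity)
      _ = 8 * B * C * (QQ ⌊L⌋₊ / L) * (y1 * y1) := by ring
      _ ≤ 8 * B * C * (QQ ⌊L⌋₊ / L) * (y1 * y2) := by gcongr
  have h5 : |G / y2 - f1 * (y2 - y1) / (y1 * y2)| ≤ 15 * B * C * (QQ ⌊L⌋₊ / L) := by
    have : 0 ≤ B * C * (QQ ⌊L⌋₊ / L) := by positivity
    rw [abs_le]
    constructor <;> linarith
  calc L' * |G / y2 - f1 * (y2 - y1) / (y1 * y2)| ≤ (2 * L) * (15 * B * C * (QQ ⌊L⌋₊ / L)) := by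
        apply mul_le_mul (by linarith) h5 (abs_nonneg _) (by positivity)
    _ = 30 * B * C * QQ ⌊L⌋₊ := by field_simp; ring
    _ ≤ 30 * B * C * (ε / (40 * C * B)) := by gcongr
    _ = 3 / 4 * ε := by field_simp; ring
    _ ≤ ε := by linarith

end Pool.Agent.H39m
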