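import Mathlib
import Pool.Agent.H39m.Mn

set_option autoImplicit false

/-!
# The primes imitate every sieve of intervals: main theorem
-/

namespace Pool.Agent.H39m

open Finset Filter Topology
open Pool.Agent.H378R2 (PW WW BE GoodP GoodS yy mem_PW)
open Pool.Agent.H510R2.Maier (QQ QQ_pos QQ_cell QQ_real VV)
open Pool.Agent.N610.MS (lp)
open Pool.Agent.N610.MS.MAIN (lp_R cnt_eq)

/-- first part: all scales up to `X ^ (9 / 10)` -/
theorem main1 (δ ε : ℝ) (hδ : 0 < δ) (hε : 0 < ε) : ∀ᶠ X : ℝ in atTop, ∀ r : ℕ → ℕ,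
    ∃ w : ℕ → ℝ, (∀ n, 0 ≤ w n ∧ w n ≤ X ^ (-(9 / 10) : ℝ)) ∧
      (∀ n, w n ≠ 0 → X < n ∧ (n : ℝ) < 3 * X) ∧ ∑ n ∈ Icc 1 ⌊3 * X⌋₊, w n = 1 ∧
      ∀ y : ℝ, Real.log X ^ (1 + δ) ≤ y → y ≤ X ^ (9 / 10 : ℝ) →
        |∑ n ∈ Icc 1 ⌊3 * X⌋₊, w n * R n y - density r (Real.log X) y| ≤ ε := by
  classical
  obtain ⟨C, hC, hev⟩ := sieve_upper δ hδ
  obtain ⟨Z, hZ⟩ := missing (min (1 / 2) (ε / (16 * C))) (by positivity)
  have hrows := rowsG 1 Z (ε / (8 * C)) (by positivity)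
  have hX110 : ∀ᶠ X : ℝ in atTop, X ^ (-(1 / 10) : ℝ) ≤ ε / 4 :=
    (tendsto_rpow_neg_atTop (show (0 : ℝ) < 1 / 10 by norm_num)).eventually_le_const (by positivity)
  have hlog4 : ∀ᶠ X : ℝ in atTop, 4 / ε ≤ Real.log X := Real.tendsto_log_atTop.eventually_ge_atTop _
  filter_upwards [Real.tendsto_log_atTop.eventually hev, hZ, hrows, hX110, hlog4,
    Real.tendsto_log_atTop.eventually_ge_atTop 1, eventually_gt_atTop (1 : ℝ)]
    with X hSU hmiss hR h110 hl4 hL1 hX1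
  intro r
  have hX0 : 0 < X := by linarith
  obtain ⟨ps, S, hps, hS, hrow⟩ := hR
  obtain ⟨r0, hr0⟩ := exists_r0 (X := X) (S := S) (ps := ps) r
  obtain ⟨w, ρ, hρ, hw0, hw1, hwsum, hwY⟩ := hrow r0
  refine ⟨w, hw0, hw1, hwsum, fun y hy1 hy2 => ?_⟩
  have hmiss' := hmiss ps S hps hS
  set L := Real.log X with hL
  have hL0 : 0 < L := by linarith
  set P := PW X S ps with hP
  have hPp : ∀ p ∈ P, p.Prime ∧ (p : ℝ) ≤ L := by
    intro p hp
    rw [hP, mem_PW] at hp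
    refine ⟨hp.2.1, ?_⟩
    have h1 : (p : ℝ) ≤ yy X := by exact_mod_cast hp.1
    have h2 : (yy X : ℝ) ≤ L / 1000 := Nat.floor_le (by positivity)
    linarith
  have hPprime : ∀ p ∈ P, p.Prime := fun p hp => (hPp p hp).1
  obtain ⟨hcmp, _⟩ := compare (show SU δ C L from hSU) hC hδ hL1 hPp _ hmiss' (min_le_left _ _) r hy1
  have hy0 : 0 < y := lt_of_lt_of_le (Real.rpow_pos_of_pos hL0 _) hy1
  set D := ∏ p ∈ P, (1 - 1 / (p : ℝ)) with hD
  have hD0 : 0 < D := prod_pos' hPprime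
  have hBE : BE P = D := rfl
  set Y := ⌊y⌋₊ with hY
  have hYy : (Y : ℝ) ≤ y := Nat.floor_le hy0.le
  have hwy := hwY Y (hYy.trans hy2)
  rw [hr0 Y, hBE, pow_one] at hwy
  have hup := cnt_upper (show SU δ C L from hSU) (by linarith) hδ hL1 hPp r
    (y := y) ((Real.rpow_le_rpow_of_exponent_le hL1 (by linarith)).trans hy1)
  -- from R to lp
  have h1 : |∑ n ∈ Icc 1 ⌊3 * X⌋₊, w n * R n y - (∑ n ∈ Icc 1 ⌊3 * X⌋₊, w n * lp n Y) / y| ≤ ε / 4 := by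
    refine le_trans ?_ h110
    rw [Finset.sum_div, ← Finset.sum_sub_distrib]
    calc |∑ n ∈ Icc 1 ⌊3 * X⌋₊, (w n * R n y - w n * lp n Y / y)|
        ≤ ∑ n ∈ Icc 1 ⌊3 * X⌋₊, |w n * R n y - w n * lp n Y / y| := Finset.abs_sum_le_sum_abs _ _
      _ ≤ ∑ n ∈ Icc 1 ⌊3 * X⌋₊, w n * X ^ (-(1 / 10) : ℝ) := by
          refine Finset.sum_le_sum fun n hn => ?_
          rw [Finset.mem_Icc] at hn
          have e : w n * R n y - w n * lp n Y / y = w n * (R n y - lp n Y / y) := by ring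
          rw [e, abs_mul, abs_of_nonneg (hw0 n).1]
          by_cases hwn : w n = 0
          · rw [hwn]; simp
          · have hXn := (hw1 n hwn).1
            refine mul_le_mul_of_nonneg_left ?_ (hw0 n).1
            refine (lp_R hn.1 hy0).trans ?_
            calc (Y : ℝ) / n ≤ X ^ (9 / 10 : ℝ) / X := by
                  apply div_le_div₀ (by positivity) (hYy.trans hy2) hX0 hXn.le
              _ = X ^ (-(1 / 10) : ℝ) := by
                  nth_rw 2 [← Real.rpow_one X]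
                  rw [← Real.rpow_sub hX0]
                  norm_num
      _ = X ^ (-(1 / 10) : ℝ) := by rw [← Finset.sum_mul, hwsum, one_mul]
  set a := (cnt P r Y : ℝ) / (y * D) with ha
  have hyD : 0 < y * D := by positivity
  have ha0 : 0 ≤ a := by positivity
  have ha2 : a ≤ 2 * C := by
    rw [ha, div_le_iff₀ hyD]
    exact hup
  have h2 : |(∑ n ∈ Icc 1 ⌊3 * X⌋₊, w n * lp n Y) / y - ρ * a| ≤ ε / 4 := by
    have e : (∑ n ∈ Icc 1 ⌊3 * X⌋₊, w n * lp n Y) / y - ρ * a =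
        (∑ n ∈ Icc 1 ⌊3 * X⌋₊, w n * lp n Y - ρ * (cnt P r Y / D)) / y := by
      rw [ha]
      field_simp
    rw [e, abs_div, abs_of_pos hy0, div_le_iff₀ hy0]
    refine hwy.trans ?_
    rw [div_le_iff₀ hL0]
    have h3 : 1 ≤ ε / 4 * L := by
      calc 1 = ε / 4 * (4 / ε) := by field_simp
        _ ≤ ε / 4 * L := by gcongr
    calc (Y : ℝ) ≤ y * 1 := by rw [mul_one]; exact hYy
      _ ≤ y * (ε / 4 * L) := by gcongr
      _ = ε / 4 * y * L := by ring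
  have h3 : |ρ * a - a| ≤ ε / 4 := by
    have e : ρ * a - a = (ρ - 1) * a := by ring
    rw [e, abs_mul, abs_of_nonneg ha0]
    calc |ρ - 1| * a ≤ ε / (8 * C) * (2 * C) := mul_le_mul hρ ha2 ha0 (by positivity)
      _ = ε / 4 := by field_simp; norm_num
  have h4 : |a - density r L y| ≤ ε / 4 := by
    refine hcmp.trans ?_
    calc 4 * C * min (1 / 2) (ε / (16 * C)) ≤ 4 * C * (ε / (16 * C)) := by
          gcongr
          exact min_le_right _ _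
      _ = ε / 4 := by field_simp; norm_num
  have h5 := abs_sub_le (∑ n ∈ Icc 1 ⌊3 * X⌋₊, w n * R n y) ((∑ n ∈ Icc 1 ⌊3 * X⌋₊, w n * lp n Y) / y)
    (density r L y)
  have h6 := abs_sub_le ((∑ n ∈ Icc 1 ⌊3 * X⌋₊, w n * lp n Y) / y) (ρ * a) (density r L y)
  have h7 := abs_sub_le (ρ * a) a (density r L y)
  linarith

/-- both parts -/
theorem main2 (δ B ε : ℝ) (hδ : 0 < δ) (hε : 0 < ε) : ∀ᶠ X : ℝ in atTop, ∀ r : ℕ → ℕ,
    ∃ w : ℕ → ℝ, (∀ n, 0 ≤ w n ∧ w n ≤ X ^ (-(9 / 10) : ℝ)) ∧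
      (∀ n, w n ≠ 0 → X < n ∧ (n : ℝ) < 3 * X) ∧ ∑ n ∈ Icc 1 ⌊3 * X⌋₊, w n = 1 ∧
      (∀ y : ℝ, Real.log X ^ (1 + δ) ≤ y → y ≤ X ^ (9 / 10 : ℝ) →
        |∑ n ∈ Icc 1 ⌊3 * X⌋₊, w n * R n y - density r (Real.log X) y| ≤ ε) ∧
      (∀ t : ℝ, 1 + δ ≤ t → t ≤ B →
        |∑ n ∈ Icc 1 ⌊3 * X⌋₊, w n * R n (Real.log n ^ t) - density r (Real.log X) (Real.log X ^ t)| ≤ ε) := by
  have hpw := pointwise δ (max B 1) (ε / 2) hδ (le_max_right _ _) (by positivity)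
  have hm := main1 δ (ε / 2) hδ (by positivity)
  have hbig : ∀ᶠ X : ℝ in atTop, Real.log X ^ B ≤ X ^ (9 / 10 : ℝ) := by
    have h1 := (isLittleO_log_rpow_rpow_atTop B (show (0 : ℝ) < 9 / 10 by norm_num)).bound one_pos
    filter_upwards [h1, eventually_gt_atTop (1 : ℝ)] with X h2 h3
    rw [one_mul, Real.norm_of_nonneg (Real.rpow_nonneg (Real.log_nonneg h3.le) _),
      Real.norm_of_nonneg (Real.rpow_nonneg (by linarith) _)] at h2
    exact h2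
  filter_upwards [hpw, hm, hbig, Real.tendsto_log_atTop.eventually_ge_atTop 1] with X h1 h2 h3 h4
  intro r
  obtain ⟨w, hw0, hw1, hw2, hw3⟩ := h2 r
  refine ⟨w, hw0, hw1, hw2, fun y hy1 hy2 => (hw3 y hy1 hy2).trans (by linarith), fun t ht1 ht2 => ?_⟩
  have h5 := hw3 (Real.log X ^ t) (Real.rpow_le_rpow_of_exponent_le h4 ht1)
    ((Real.rpow_le_rpow_of_exponent_le h4 ht2).trans h3)
  have h6 : |∑ n ∈ Icc 1 ⌊3 * X⌋₊, w n * R n (Real.log n ^ t) -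
      ∑ n ∈ Icc 1 ⌊3 * X⌋₊, w n * R n (Real.log X ^ t)| ≤ ε / 2 := by
    rw [← Finset.sum_sub_distrib]
    calc |∑ n ∈ Icc 1 ⌊3 * X⌋₊, (w n * R n (Real.log n ^ t) - w n * R n (Real.log X ^ t))|
        ≤ ∑ n ∈ Icc 1 ⌊3 * X⌋₊, |w n * R n (Real.log n ^ t) - w n * R n (Real.log X ^ t)| :=
          Finset.abs_sum_le_sum_abs _ _
      _ ≤ ∑ n ∈ Icc 1 ⌊3 * X⌋₊, w n * (ε / 2) := by
          refine Finset.sum_le_sum fun n _ => ?_
          rw [← mul_sub, abs_mul, abs_of_nonneg (hw0 n).1]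
          by_cases hwn : w n = 0
          · rw [hwn]; simp
          · exact mul_le_mul_of_nonneg_left (h1 n (hw1 n hwn).1 (hw1 n hwn).2 t ht1 (ht2.trans (le_max_left _ _)))
              (hw0 n).1
      _ = ε / 2 := by rw [← Finset.sum_mul, hw2, one_mul]
  have h7 := abs_sub_le (∑ n ∈ Icc 1 ⌊3 * X⌋₊, w n * R n (Real.log n ^ t))
    (∑ n ∈ Icc 1 ⌊3 * X⌋₊, w n * R n (Real.log X ^ t)) (density r (Real.log X) (Real.log X ^ t))
  linarith

/-- linear combinations -/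
theorem lin {k : ℕ} (a c : Fin k → ℝ) (ha : ∀ i, 1 < a i) (ε : ℝ) (hε : 0 < ε) :
    ∀ᶠ X : ℝ in atTop, ∀ r : ℕ → ℕ, ∃ n : ℕ, X < n ∧ (n : ℝ) < 3 * X ∧
      ∑ i, c i * density r (Real.log X) (Real.log X ^ a i) - ε ≤ ∑ i, c i * R n (Real.log n ^ a i) := by
  classical
  obtain ⟨δ, hδ, hδa⟩ : ∃ δ : ℝ, 0 < δ ∧ ∀ i, 1 + δ ≤ a i := by
    rcases Nat.eq_zero_or_pos k with h0 | h0
    · subst h0
      exact ⟨1, one_pos, fun i => i.elim0⟩
    · haveI : Nonempty (Fin k) := ⟨⟨0, h0⟩⟩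
      obtain ⟨i0, hi0⟩ := Finite.exists_min a
      exact ⟨a i0 - 1, by linarith [ha i0], fun i => by linarith [hi0 i]⟩
  obtain ⟨B, hB⟩ : ∃ B : ℝ, ∀ i, a i ≤ B := by
    obtain ⟨B, hB⟩ := (Set.finite_range a).bddAbove
    exact ⟨B, fun i => hB ⟨i, rfl⟩⟩
  set Sc := ∑ i, |c i| with hSc
  have hSc0 : 0 ≤ Sc := Finset.sum_nonneg fun i _ => abs_nonneg _
  filter_upwards [main2 δ B (ε / (Sc + 1)) hδ (by positivity), eventually_gt_atTop (1 : ℝ)] with X hX hX1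
  intro r
  obtain ⟨w, hw0, hw1, hw2, _, hw4⟩ := hX r
  by_contra hcon
  push Not at hcon
  set T := ∑ i, c i * density r (Real.log X) (Real.log X ^ a i) with hT
  -- the mean value of the linear combination
  have h1 : ∑ n ∈ Icc 1 ⌊3 * X⌋₊, w n * ∑ i, c i * R n (Real.log n ^ a i) =
      ∑ i, c i * ∑ n ∈ Icc 1 ⌊3 * X⌋₊, w n * R n (Real.log n ^ a i) := by
    simp_rw [Finset.mul_sum]
    rw [Finset.sum_comm]
    refine Finset.sum_congr rfl fun i _ => Finset.sum_congr rfl fun n _ => by ring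
  have h2 : T - ε * (Sc / (Sc + 1)) ≤ ∑ i, c i * ∑ n ∈ Icc 1 ⌊3 * X⌋₊, w n * R n (Real.log n ^ a i) := by
    have h3 : T - ∑ i, c i * ∑ n ∈ Icc 1 ⌊3 * X⌋₊, w n * R n (Real.log n ^ a i) =
        ∑ i, c i * (density r (Real.log X) (Real.log X ^ a i) - ∑ n ∈ Icc 1 ⌊3 * X⌋₊, w n * R n (Real.log n ^ a i)) := by
      rw [hT, ← Finset.sum_sub_distrib]
      exact Finset.sum_congr rfl fun i _ => by ring
    have h4 : ∑ i, c i * (density r (Real.log X) (Real.log X ^ a i) - ∑ n ∈ Icc 1 ⌊3 * X⌋₊, w n * R n (Real.log n ^ a i)) ≤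
        ∑ i, |c i| * (ε / (Sc + 1)) := by
      refine Finset.sum_le_sum fun i _ => ?_
      refine (le_abs_self _).trans ?_
      rw [abs_mul]
      refine mul_le_mul_of_nonneg_left ?_ (abs_nonneg _)
      rw [abs_sub_comm]
      exact hw4 (a i) (hδa i) (hB i)
    rw [← Finset.sum_mul, ← hSc] at h4
    have h5 : Sc * (ε / (Sc + 1)) = ε * (Sc / (Sc + 1)) := by ring
    linarith
  have h3 : ε * (Sc / (Sc + 1)) < ε := by
    have : Sc / (Sc + 1) < 1 := by rw [div_lt_one (by linarith)]; linarith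
    nlinarith
  have h4 : ∑ n ∈ Icc 1 ⌊3 * X⌋₊, w n * ∑ i, c i * R n (Real.log n ^ a i) ≤
      ∑ n ∈ Icc 1 ⌊3 * X⌋₊, w n * (T - ε) := by
    refine Finset.sum_le_sum fun n _ => ?_
    by_cases hwn : w n = 0
    · rw [hwn]; simp
    · exact mul_le_mul_of_nonneg_left (hcon n (hw1 n hwn).1 (hw1 n hwn).2).le (hw0 n).1
  rw [← Finset.sum_mul, hw2, one_mul, h1] at h4
  linarith

/-- upper limits -/
theorem lim {k : ℕ} (a c : Fin k → ℝ) (ha : ∀ i, 1 < a i) :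
    limsup (fun z : ℝ => ⨆ r : ℕ → ℕ, ((∑ i, c i * density r z (z ^ a i) : ℝ) : EReal)) atTop ≤
      limsup (fun x : ℝ => ((∑ i, c i * R x (Real.log x ^ a i) : ℝ) : EReal)) atTop := by
  refine le_of_forall_lt fun b hb => ?_
  obtain ⟨u, hu1, hu2⟩ := EReal.lt_iff_exists_real_btwn.1 hb
  obtain ⟨v, hv1, hv2⟩ := EReal.lt_iff_exists_real_btwn.1 hu1
  rw [EReal.coe_lt_coe_iff] at hv2
  refine lt_of_lt_of_le hv1 ?_
  apply Filter.le_limsup_of_frequently_le _ (by isBoundedDefault)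
  have h1 := Filter.frequently_lt_of_lt_limsup (by isBoundedDefault) hu2
  -- the frequent event
  have hlin : ∀ᶠ z : ℝ in atTop, ∀ r : ℕ → ℕ, ∃ n : ℕ, Real.exp z < n ∧ (n : ℝ) < 3 * Real.exp z ∧
      ∑ i, c i * density r z (z ^ a i) - (u - v) ≤ ∑ i, c i * R n (Real.log n ^ a i) := by
    have h2 := Real.tendsto_exp_atTop.eventually (lin a c ha (u - v) (by linarith))
    filter_upwards [h2] with z h3 r
    have h4 := h3 r
    rw [Real.log_exp] at h4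
    exact h4
  rw [Filter.frequently_atTop]
  intro x0
  have h5 := (h1.and_eventually (hlin.and (eventually_ge_atTop x0)))
  obtain ⟨z, hz1, hz2, hz3⟩ := h5.exists
  rw [lt_iSup_iff] at hz1
  obtain ⟨r, hr⟩ := hz1
  rw [EReal.coe_lt_coe_iff] at hr
  obtain ⟨n, hn1, _, hn3⟩ := hz2 r
  refine ⟨n, ?_, ?_⟩
  · have := Real.add_one_le_exp z
    linarith
  · rw [EReal.coe_le_coe_iff]
    linarith

end Pool.Agent.H39m
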